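import Pool.Agent.helper56.CT.SpecG

namespace CT
open Finset

section G1aux
variable {D : Type} [DecidableEq D]

/-- conjugate along the strands of `e`, trivial outside `A` -/
def G1_Cj (A : Finset D) (e : D → D) (l : D → Bool × Bool) : Prop :=
  (∀ d ∈ A, l (e d) = cj (l d)) ∧ ∀ d, d ∉ A → l d = (false, false)

theorem G1_cjcj (a : Bool × Bool) : cj (cj a) = a := by
  unfold cj; simp

theorem G1_cj_ne (a : Bool × Bool) : cj a ≠ a := by
  revert a; decide

theorem G1_lift_iff (A : Finset D) (e : D → D) (hA : Act A e) (x y : D) (hx : x ∈ A) (hy : y ∈ A)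
    (hxy : x ≠ y) (l' : D → Bool × Bool)
    (hl' : G1_Cj ((A.erase x).erase y) (join e x y) l') (c : Bool × Bool) :
    G1_Cj A e (fun d => if d = x then c else if d = y then cj c else l' d) ↔
      (e x = y ∨ c = cj (l' (e x))) := by
  have he := hA.1
  have hxx : e x ≠ x := (hA.2 x).mpr hx
  have hyy : e y ≠ y := (hA.2 y).mpr hy
  have hyx : y ≠ x := hxy.symm
  have hmem : ∀ d, d ∈ A → e d ∈ A := fun d hd =>
    (hA.2 (e d)).mp (fun h => (hA.2 d).mpr hd (by rw [he] at h; exact h.symm))
  constructor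
  · rintro ⟨h1, -⟩
    by_cases hc : e x = y
    · exact Or.inl hc
    · right
      have h2 := h1 x hx
      simp only [if_true, if_neg hxx, if_neg hc] at h2
      rw [h2, G1_cjcj]
  · intro hc
    refine ⟨?_, ?_⟩
    · intro d hd
      rcases hc with hc | hc
      · have hc' : e y = x := by rw [← hc, he]
        by_cases dx : d = x
        · subst dx; simp [hc, hyx]
        by_cases dy : d = y
        · subst dy; simp [hc', hyx, G1_cjcj]
        have e1 : e d ≠ x := fun h => dy (by rw [← he d, h, hc])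
        have e2 : e d ≠ y := fun h => dx (by rw [← he d, h, hc'])
        have h3 := hl'.1 d (by rw [mem_erase, mem_erase]; exact ⟨dy, dx, hd⟩)
        have h4 : join e x y d = e d := by unfold join; simp [dx, dy, e1, e2]
        rw [h4] at h3
        simp [dx, dy, e1, e2, h3]
      · by_cases hc1 : e x = y
        · have hc' : e y = x := by rw [← hc1, he]
          by_cases dx : d = x
          · subst dx; simp [hc1, hyx]
          by_cases dy : d = y
          · subst dy; simp [hc', hyx, G1_cjcj]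
          have e1 : e d ≠ x := fun h => dy (by rw [← he d, h, hc1])
          have e2 : e d ≠ y := fun h => dx (by rw [← he d, h, hc'])
          have h3 := hl'.1 d (by rw [mem_erase, mem_erase]; exact ⟨dy, dx, hd⟩)
          have h4 : join e x y d = e d := by unfold join; simp [dx, dy, e1, e2]
          rw [h4] at h3
          simp [dx, dy, e1, e2, h3]
        have hc2 : e y ≠ x := fun h => hc1 (by rw [← h, he])
        have h5 : l' (e y) = cj (l' (e x)) := by
          have h3 := hl'.1 (e x) (by rw [mem_erase, mem_erase]; exact ⟨hc1, hxx, hmem x hx⟩)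
          have h4 : join e x y (e x) = e y := by unfold join; simp [hxx, hc1, he]
          rwa [h4] at h3
        by_cases dx : d = x
        · subst dx; simp [hxx, hc1, hc, G1_cjcj]
        by_cases dy : d = y
        · subst dy; simp [hyy, hc2, hyx, hc, h5, G1_cjcj]
        by_cases e1 : e d = x
        · have : d = e x := by rw [← e1, he]
          simp only [e1, if_true, dx, dy, if_false]
          rw [hc, this]
        by_cases e2 : e d = y
        · have : d = e y := by rw [← e2, he]
          simp only [e2, if_true, dx, dy, if_false, hyx]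
          rw [hc, this, h5]
        have h3 := hl'.1 d (by rw [mem_erase, mem_erase]; exact ⟨dy, dx, hd⟩)
        have h4 : join e x y d = e d := by unfold join; simp [dx, dy, e1, e2]
        rw [h4] at h3
        simp [dx, dy, e1, e2, h3]
    · intro d hd
      have dx : d ≠ x := fun h => hd (h ▸ hx)
      have dy : d ≠ y := fun h => hd (h ▸ hy)
      simp only [if_neg dx, if_neg dy]
      exact hl'.2 d (fun h => hd (mem_of_mem_erase (mem_of_mem_erase h)))

theorem G1_restr (A : Finset D) (e : D → D) (hA : Act A e) (x y : D) (hx : x ∈ A) (hy : y ∈ A)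
    (hxy : x ≠ y) (l : D → Bool × Bool) (hl : G1_Cj A e l) (hc : l y = cj (l x)) :
    G1_Cj ((A.erase x).erase y) (join e x y)
      (fun d => if d = x ∨ d = y then (false, false) else l d) := by
  have he := hA.1
  have hxx : e x ≠ x := (hA.2 x).mpr hx
  have hyy : e y ≠ y := (hA.2 y).mpr hy
  have hyx : y ≠ x := hxy.symm
  refine ⟨?_, ?_⟩
  · intro d hd
    rw [mem_erase, mem_erase] at hd
    obtain ⟨dy, dx, hd⟩ := hd
    by_cases e1 : e d = x
    · have hdx : d = e x := by rw [← e1, he]
      have e3 : e y ≠ x := fun h => dy (by rw [hdx, ← h, he])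
      have h4 : join e x y d = e y := by unfold join; simp [dx, dy, e1]
      rw [h4]
      simp only [hyy, e3, dx, dy, or_self, if_false]
      rw [hl.1 y hy, hc, G1_cjcj, hdx, hl.1 x hx, G1_cjcj]
    by_cases e2 : e d = y
    · have hdy : d = e y := by rw [← e2, he]
      have e3 : e x ≠ y := fun h => dx (by rw [hdy, ← h, he])
      have h4 : join e x y d = e x := by unfold join; simp [dx, dy, e2, hyx]
      rw [h4]
      simp only [hxx, e3, dx, dy, or_self, if_false]
      rw [hl.1 x hx, hdy, hl.1 y hy, hc, G1_cjcj]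
    have h4 : join e x y d = e d := by unfold join; simp [dx, dy, e1, e2]
    rw [h4]
    simp only [e1, e2, dx, dy, or_self, if_false]
    exact hl.1 d hd
  · intro d hd
    by_cases dx : d = x
    · simp [dx]
    by_cases dy : d = y
    · simp [dy]
    simp only [dx, dy, or_self, if_false]
    apply hl.2
    intro h
    apply hd
    rw [mem_erase, mem_erase]
    exact ⟨dy, dx, h⟩

open Classical in
theorem G1_join [Fintype D] (A : Finset D) (e : D → D) (hA : Act A e) (x y : D) (hx : x ∈ A)
    (hy : y ∈ A) (hxy : x ≠ y) (W : (D → Bool × Bool) → ℤ)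
    (hW : ∀ l l' : D → Bool × Bool, (∀ d, d ≠ x → d ≠ y → l d = l' d) → W l = W l') :
    ∑ l : D → Bool × Bool, (if G1_Cj A e l ∧ l y = cj (l x) then W l else 0) =
      4 ^ lp e x y * ∑ l : D → Bool × Bool,
        (if G1_Cj ((A.erase x).erase y) (join e x y) l then W l else 0) := by
  have hyx : y ≠ x := hxy.symm
  rw [← Finset.sum_filter, ← Finset.sum_filter]
  set S1 := (univ : Finset (D → Bool × Bool)).filter fun l => G1_Cj A e l ∧ l y = cj (l x)
  set S2 := (univ : Finset (D → Bool × Bool)).filter fun l =>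
    G1_Cj ((A.erase x).erase y) (join e x y) l
  let r : (D → Bool × Bool) → D → Bool × Bool :=
    fun l d => if d = x ∨ d = y then (false, false) else l d
  have hr : ∀ l ∈ S1, r l ∈ S2 := by
    intro l hl
    rw [mem_filter] at hl ⊢
    exact ⟨mem_univ _, G1_restr A e hA x y hx hy hxy l hl.2.1 hl.2.2⟩
  rw [← Finset.sum_fiberwise_of_maps_to hr, Finset.mul_sum]
  refine Finset.sum_congr rfl fun l' hl' => ?_
  have hl'' := (mem_filter.mp hl').2
  have hl'x : l' x = (false, false) := hl''.2 x (by simp)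
  have hl'y : l' y = (false, false) := hl''.2 y (by simp)
  let lift : Bool × Bool → D → Bool × Bool := fun c d => if d = x then c else if d = y then cj c else l' d
  have hlinj : Function.Injective lift := by
    intro c c' h
    have := congrFun h x
    simpa [lift] using this
  have hfib : S1.filter (fun l => r l = l') =
      ((univ : Finset (Bool × Bool)).filter fun c => e x = y ∨ c = cj (l' (e x))).image lift := by
    ext l
    rw [mem_filter, mem_filter, mem_image]
    constructor
    · rintro ⟨⟨-, h1, h2⟩, h3⟩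
      have h4 : l = lift (l x) := by
        funext d
        by_cases dx : d = x
        · simp [lift, dx]
        by_cases dy : d = y
        · simp [lift, dy, hyx, h2]
        simp only [lift, dx, dy, if_false]
        rw [← h3]
        simp [r, dx, dy]
      refine ⟨l x, ?_, h4.symm⟩
      rw [mem_filter]
      refine ⟨mem_univ _, (G1_lift_iff A e hA x y hx hy hxy l' hl'' (l x)).mp ?_⟩
      rw [h4] at h1
      exact h1
    · rintro ⟨c, hc, rfl⟩
      rw [mem_filter] at hc
      refine ⟨⟨mem_univ _, (G1_lift_iff A e hA x y hx hy hxy l' hl'' c).mpr hc.2, ?_⟩, ?_⟩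
      · simp [lift, hyx]
      · funext d
        by_cases dx : d = x
        · simp [r, dx, hl'x]
        by_cases dy : d = y
        · simp [r, dy, hl'y]
        simp [r, lift, dx, dy]
  have hWc : ∀ l ∈ S1.filter (fun l => r l = l'), W l = W l' := by
    intro l hl
    rw [mem_filter] at hl
    apply hW
    intro d dx dy
    rw [← hl.2]
    simp [r, dx, dy]
  rw [Finset.sum_congr rfl hWc, Finset.sum_const, hfib, card_image_of_injective _ hlinj]
  have hcard : ((univ : Finset (Bool × Bool)).filter fun c => e x = y ∨ c = cj (l' (e x))).card =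
      4 ^ lp e x y := by
    unfold lp
    by_cases h : e x = y
    · rw [if_pos h]
      simp [h]
    · rw [if_neg h]
      simp only [h, false_or, pow_zero]
      rw [Finset.filter_eq' , if_pos (mem_univ _), card_singleton]
  rw [hcard, nsmul_eq_mul]
  push_cast
  ring

end G1aux

section G1aux2
variable {V : Type} [DecidableEq V]

theorem G1_kl_congr (L : List V) : ∀ (e : V × Fin 4 → V × Fin 4) (s s' : V × Fin 4 → Bool),
    (∀ v ∈ L, ∀ i, s (v, i) = s' (v, i)) → kl s L e = kl s' L e := by
  induction L with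
  | nil => intro e s s' _; rfl
  | cons u L ih =>
    intro e s s' h
    have h1 : tp s u = tp s' u := by
      unfold tp
      rw [h u List.mem_cons_self 0, h u List.mem_cons_self 1, h u List.mem_cons_self 2]
    show ls e u (tp s u) + kl s L (sm e u (tp s u)) = ls e u (tp s' u) + kl s' L (sm e u (tp s' u))
    rw [h1, ih _ s s' (fun v hv i => h v (List.mem_cons_of_mem _ hv) i)]

/-- compatibility with the pairing `t` -/
def G1_cp (t : Fin 3) (f : Fin 4 → Bool × Bool) : Prop :=
  f (pr t).2.1 = cj (f (pr t).1) ∧ f (pr t).2.2.2 = cj (f (pr t).2.2.1)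

set_option synthInstance.maxSize 100000 in
theorem G1_dec1 : ∀ a0 a1 a2 a3 : Bool × Bool, a0 ≠ a1 → a0 ≠ a2 → a0 ≠ a3 → a1 ≠ a2 → a1 ≠ a3 →
    a2 ≠ a3 →
    ((a1 = cj a0 ∧ a3 = cj a2) ↔ a0.1 = a1.1) ∧
    ((a2 = cj a0 ∧ a3 = cj a1) ↔ (a0.1 ≠ a1.1 ∧ a0.1 = a2.1)) ∧
    ((a3 = cj a0 ∧ a2 = cj a1) ↔ (a0.1 ≠ a1.1 ∧ a0.1 ≠ a2.1)) := by
  rintro ⟨a, b⟩ ⟨c, d⟩ ⟨e, f⟩ ⟨g, h⟩
  unfold cj
  revert a b c d e f g h
  decide

set_option synthInstance.maxSize 100000 in
theorem G1_dec2 : ∀ a0 a1 a2 a3 : Bool × Bool,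
    ¬ (a0 ≠ a1 ∧ a0 ≠ a2 ∧ a0 ≠ a3 ∧ a1 ≠ a2 ∧ a1 ≠ a3 ∧ a2 ≠ a3) →
    ((a1 = cj a0 ∧ a3 = cj a2) ∨ (a2 = cj a0 ∧ a3 = cj a1) ∨ (a3 = cj a0 ∧ a2 = cj a1)) →
    (a1 = a0 ∧ a2 = cj a0 ∧ a3 = cj a0) ∨ (a2 = a0 ∧ a1 = cj a0 ∧ a3 = cj a0) ∨
      (a3 = a0 ∧ a1 = cj a0 ∧ a2 = cj a0) := by
  rintro ⟨a, b⟩ ⟨c, d⟩ ⟨e, f⟩ ⟨g, h⟩
  unfold cj
  revert a b c d e f g h
  decide

theorem G1_inj4 (f : Fin 4 → Bool × Bool) : Function.Injective f ↔
    (f 0 ≠ f 1 ∧ f 0 ≠ f 2 ∧ f 0 ≠ f 3 ∧ f 1 ≠ f 2 ∧ f 1 ≠ f 3 ∧ f 2 ≠ f 3) := by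
  constructor
  · intro h
    refine ⟨?_, ?_, ?_, ?_, ?_, ?_⟩ <;> intro h' <;> have := h h' <;> revert this <;> decide
  · rintro ⟨h1, h2, h3, h4, h5, h6⟩ k l h
    fin_cases k <;> fin_cases l <;> first | rfl | (exfalso; first | exact h1 h | exact h2 h | exact h3 h | exact h4 h | exact h5 h | exact h6 h | exact h1 h.symm | exact h2 h.symm | exact h3 h.symm | exact h4 h.symm | exact h5 h.symm | exact h6 h.symm)

open Classical in
theorem G1_two [Fintype V] (S : Finset V) (u : V) (hu : u ∉ S) (e : V × Fin 4 → V × Fin 4)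
    (h : Act (dts (insert u S)) e) (a b c d : Fin 4) (hab : a ≠ b) (hac : a ≠ c) (had : a ≠ d)
    (hbc : b ≠ c) (hbd : b ≠ d) (hcd : c ≠ d) (hall : ∀ k, k = a ∨ k = b ∨ k = c ∨ k = d)
    (W : (V × Fin 4 → Bool × Bool) → ℤ)
    (hW : ∀ l l' : V × Fin 4 → Bool × Bool, (∀ z, z.1 ≠ u → l z = l' z) → W l = W l') :
    ∑ l : V × Fin 4 → Bool × Bool, (if G1_Cj (dts (insert u S)) e l ∧
      (l (u, b) = cj (l (u, a)) ∧ l (u, d) = cj (l (u, c))) then W l else 0) =
    4 ^ (lp e (u, a) (u, b) + lp (join e (u, a) (u, b)) (u, c) (u, d)) *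
      ∑ l : V × Fin 4 → Bool × Bool,
        (if G1_Cj (dts S) (join (join e (u, a) (u, b)) (u, c) (u, d)) l then W l else 0) := by
  have hp : ∀ k l : Fin 4, k ≠ l → ((u, k) : V × Fin 4) ≠ (u, l) := fun k l h h' =>
    h (congrArg Prod.snd h')
  have hm : ∀ k : Fin 4, ((u, k) : V × Fin 4) ∈ dts (insert u S) := fun k => by
    unfold dts; simp
  have h1 := join_act h (hm a) (hm b) (hp _ _ hab)
  have hs : (((((dts (insert u S)).erase (u, a)).erase (u, b)).erase (u, c)).erase (u, d)) = dts S := by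
    ext ⟨v, i⟩
    simp only [mem_erase, dts, mem_product, mem_insert, mem_univ, and_true, ne_eq, Prod.mk.injEq]
    constructor
    · rintro ⟨h4, h3, h2, h1, (rfl | h)⟩
      · exfalso
        rcases hall i with rfl | rfl | rfl | rfl
        · exact h1 ⟨rfl, rfl⟩
        · exact h2 ⟨rfl, rfl⟩
        · exact h3 ⟨rfl, rfl⟩
        · exact h4 ⟨rfl, rfl⟩
      · exact h
    · intro h
      have hv : v ≠ u := fun h' => hu (h' ▸ h)
      exact ⟨fun h' => hv h'.1, fun h' => hv h'.1, fun h' => hv h'.1, fun h' => hv h'.1, Or.inr h⟩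
  have e1 : ∀ l : V × Fin 4 → Bool × Bool, (if G1_Cj (dts (insert u S)) e l ∧
      (l (u, b) = cj (l (u, a)) ∧ l (u, d) = cj (l (u, c))) then W l else 0) =
      (if G1_Cj (dts (insert u S)) e l ∧ l (u, b) = cj (l (u, a)) then
        (if l (u, d) = cj (l (u, c)) then W l else 0) else 0) := by
    intro l
    by_cases c1 : G1_Cj (dts (insert u S)) e l <;> by_cases c2 : l (u, b) = cj (l (u, a)) <;>
      by_cases c3 : l (u, d) = cj (l (u, c)) <;> simp [c1, c2, c3]
  rw [Finset.sum_congr rfl fun l _ => e1 l,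
    G1_join _ e h (u, a) (u, b) (hm a) (hm b) (hp _ _ hab)
      (fun l => if l (u, d) = cj (l (u, c)) then W l else 0) (by
        intro l l' hll
        have w1 : W l = W l' := hW l l' (fun z hz => hll z (fun h => hz (by rw [h]))
          (fun h => hz (by rw [h])))
        simp only [hll (u, d) (hp _ _ had.symm) (hp _ _ hbd.symm),
          hll (u, c) (hp _ _ hac.symm) (hp _ _ hbc.symm), w1])]
  have e2 : ∀ l : V × Fin 4 → Bool × Bool,
      (if G1_Cj (((dts (insert u S)).erase (u, a)).erase (u, b)) (join e (u, a) (u, b)) l then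
        (if l (u, d) = cj (l (u, c)) then W l else 0) else 0) =
      (if G1_Cj (((dts (insert u S)).erase (u, a)).erase (u, b)) (join e (u, a) (u, b)) l ∧
        l (u, d) = cj (l (u, c)) then W l else 0) := by
    intro l
    by_cases c1 : G1_Cj (((dts (insert u S)).erase (u, a)).erase (u, b)) (join e (u, a) (u, b)) l <;>
      by_cases c3 : l (u, d) = cj (l (u, c)) <;> simp [c1, c3]
  rw [Finset.sum_congr rfl fun l _ => e2 l,
    G1_join _ _ h1 (u, c) (u, d)
      (by rw [mem_erase, mem_erase]; exact ⟨hp _ _ hbc.symm, hp _ _ hac.symm, hm c⟩)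
      (by rw [mem_erase, mem_erase]; exact ⟨hp _ _ hbd.symm, hp _ _ had.symm, hm d⟩) (hp _ _ hcd)
      W (fun l l' hll => hW l l' (fun z hz => hll z (fun h => hz (by rw [h]))
          (fun h => hz (by rw [h])))), hs, pow_add, mul_assoc]

theorem G1_ite_inst {P : Prop} (i1 i2 : Decidable P) (a b : ℤ) :
    @ite ℤ P i1 a b = @ite ℤ P i2 a b := by
  congr

open Classical in
theorem G1_sm [Fintype V] (S : Finset V) (u : V) (hu : u ∉ S) (e : V × Fin 4 → V × Fin 4)
    (h : Act (dts (insert u S)) e) (t : Fin 3)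
    (W : (V × Fin 4 → Bool × Bool) → ℤ)
    (hW : ∀ l l' : V × Fin 4 → Bool × Bool, (∀ z, z.1 ≠ u → l z = l' z) → W l = W l') :
    ∑ l : V × Fin 4 → Bool × Bool, (if G1_Cj (dts (insert u S)) e l ∧
      G1_cp t (fun i => l (u, i)) then W l else 0) =
    4 ^ ls e u t * ∑ l : V × Fin 4 → Bool × Bool,
        (if G1_Cj (dts S) (sm e u t) l then W l else 0) := by
  fin_cases t
  · exact Eq.trans (Finset.sum_congr rfl fun l _ => G1_ite_inst _ _ _ _)
      (G1_two S u hu e h 0 1 2 3 (by decide) (by decide)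
      (by decide) (by decide) (by decide) (by decide) (by decide) W hW)
  · exact Eq.trans (Finset.sum_congr rfl fun l _ => G1_ite_inst _ _ _ _)
      (G1_two S u hu e h 0 2 1 3 (by decide) (by decide)
      (by decide) (by decide) (by decide) (by decide) (by decide) W hW)
  · exact Eq.trans (Finset.sum_congr rfl fun l _ => G1_ite_inst _ _ _ _)
      (G1_two S u hu e h 0 3 1 2 (by decide) (by decide)
      (by decide) (by decide) (by decide) (by decide) (by decide) W hW)

theorem G1_act2 (S : Finset V) (u : V) (hu : u ∉ S) (e : V × Fin 4 → V × Fin 4)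
    (h : Act (dts (insert u S)) e) (a b c d : Fin 4) (hab : a ≠ b) (hac : a ≠ c) (had : a ≠ d)
    (hbc : b ≠ c) (hbd : b ≠ d) (hcd : c ≠ d) (hall : ∀ k, k = a ∨ k = b ∨ k = c ∨ k = d) :
    Act (dts S) (join (join e (u, a) (u, b)) (u, c) (u, d)) := by
  have hp : ∀ k l : Fin 4, k ≠ l → ((u, k) : V × Fin 4) ≠ (u, l) := fun k l h h' =>
    h (congrArg Prod.snd h')
  have hm : ∀ k : Fin 4, ((u, k) : V × Fin 4) ∈ dts (insert u S) := fun k => by
    unfold dts; simp
  have h1 := join_act h (hm a) (hm b) (hp _ _ hab)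
  have h2 := join_act (x := (u, c)) (y := (u, d)) h1
    (by rw [mem_erase, mem_erase]; exact ⟨hp _ _ hbc.symm, hp _ _ hac.symm, hm c⟩)
    (by rw [mem_erase, mem_erase]; exact ⟨hp _ _ hbd.symm, hp _ _ had.symm, hm d⟩) (hp _ _ hcd)
  have hs : (((((dts (insert u S)).erase (u, a)).erase (u, b)).erase (u, c)).erase (u, d)) = dts S := by
    ext ⟨v, i⟩
    simp only [mem_erase, dts, mem_product, mem_insert, mem_univ, and_true, ne_eq, Prod.mk.injEq]
    constructor
    · rintro ⟨h4, h3, h2, h1, (rfl | h)⟩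
      · exfalso
        rcases hall i with rfl | rfl | rfl | rfl
        · exact h1 ⟨rfl, rfl⟩
        · exact h2 ⟨rfl, rfl⟩
        · exact h3 ⟨rfl, rfl⟩
        · exact h4 ⟨rfl, rfl⟩
      · exact h
    · intro h
      have hv : v ≠ u := fun h' => hu (h' ▸ h)
      exact ⟨fun h' => hv h'.1, fun h' => hv h'.1, fun h' => hv h'.1, fun h' => hv h'.1, Or.inr h⟩
  rwa [hs] at h2

theorem G1_act (S : Finset V) (u : V) (hu : u ∉ S) (e : V × Fin 4 → V × Fin 4)
    (h : Act (dts (insert u S)) e) (t : Fin 3) : Act (dts S) (sm e u t) := by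
  unfold sm
  fin_cases t
  · exact G1_act2 S u hu e h 0 1 2 3 (by decide) (by decide)
      (by decide) (by decide) (by decide) (by decide) (by decide)
  · exact G1_act2 S u hu e h 0 2 1 3 (by decide) (by decide)
      (by decide) (by decide) (by decide) (by decide) (by decide)
  · exact G1_act2 S u hu e h 0 3 1 2 (by decide) (by decide)
      (by decide) (by decide) (by decide) (by decide) (by decide)

theorem G1_isLab (L : List V) (e : V × Fin 4 → V × Fin 4) (l : V × Fin 4 → Bool × Bool) :
    IsLab L e l ↔ G1_Cj (dts L.toFinset) e l ∧ ∀ v ∈ L, Function.Injective fun i => l (v, i) := by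
  have hm : ∀ d : V × Fin 4, d ∈ dts L.toFinset ↔ d.1 ∈ L := by
    intro d
    unfold dts
    rw [mem_product, List.mem_toFinset]
    simp
  unfold IsLab G1_Cj
  simp only [hm]
  tauto

open Classical in
theorem G1_local (hG1a : G1a_stmt) (u : V) (L : List V) (e : V × Fin 4 → V × Fin 4)
    (hL : (u :: L).Nodup) (hA : Act (dts (insert u L.toFinset)) e)
    (l : V × Fin 4 → Bool × Bool) (hl : G1_Cj (dts (insert u L.toFinset)) e l)
    (hinj : ∀ v ∈ L, Function.Injective fun i => l (v, i)) :
    ∑ t : Fin 3, (if G1_cp t (fun i => l (u, i)) then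
      (-1 : ℤ) ^ (ls e u t + kl (fun d => (l d).1) L (sm e u t)) else 0) =
    if Function.Injective (fun i => l (u, i)) then (-1 : ℤ) ^ kl (fun d => (l d).1) (u :: L) e else 0 := by
  obtain ⟨hu, hL'⟩ := List.nodup_cons.mp hL
  rw [Fin.sum_univ_three]
  have c0 : G1_cp 0 (fun i => l (u, i)) ↔ (l (u, 1) = cj (l (u, 0)) ∧ l (u, 3) = cj (l (u, 2))) :=
    Iff.rfl
  have c1 : G1_cp 1 (fun i => l (u, i)) ↔ (l (u, 2) = cj (l (u, 0)) ∧ l (u, 3) = cj (l (u, 1))) :=
    Iff.rfl
  have c2 : G1_cp 2 (fun i => l (u, i)) ↔ (l (u, 3) = cj (l (u, 0)) ∧ l (u, 2) = cj (l (u, 1))) :=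
    Iff.rfl
  by_cases hi : Function.Injective (fun i => l (u, i))
  · rw [if_pos hi]
    obtain ⟨h1, h2, h3, h4, h5, h6⟩ := (G1_inj4 _).mp hi
    obtain ⟨d0, d1, d2⟩ := G1_dec1 _ _ _ _ h1 h2 h3 h4 h5 h6
    rw [d0] at c0
    rw [d1] at c1
    rw [d2] at c2
    show _ = (-1 : ℤ) ^ (ls e u (tp (fun d => (l d).1) u) +
      kl (fun d => (l d).1) L (sm e u (tp (fun d => (l d).1) u)))
    unfold tp
    by_cases a1 : (l (u, 0)).1 = (l (u, 1)).1
    · have k0 : G1_cp 0 (fun i => l (u, i)) := c0.mpr a1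
      have k1 : ¬ G1_cp 1 (fun i => l (u, i)) := fun h => (c1.mp h).1 a1
      have k2 : ¬ G1_cp 2 (fun i => l (u, i)) := fun h => (c2.mp h).1 a1
      rw [if_pos k0, if_neg k1, if_neg k2, if_pos a1]
      ring
    · by_cases a2 : (l (u, 0)).1 = (l (u, 2)).1
      · have k0 : ¬ G1_cp 0 (fun i => l (u, i)) := fun h => a1 (c0.mp h)
        have k1 : G1_cp 1 (fun i => l (u, i)) := c1.mpr ⟨a1, a2⟩
        have k2 : ¬ G1_cp 2 (fun i => l (u, i)) := fun h => (c2.mp h).2 a2
        rw [if_neg k0, if_pos k1, if_neg k2, if_neg a1, if_pos a2]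
        ring
      · have k0 : ¬ G1_cp 0 (fun i => l (u, i)) := fun h => a1 (c0.mp h)
        have k1 : ¬ G1_cp 1 (fun i => l (u, i)) := fun h => a2 (c1.mp h).2
        have k2 : G1_cp 2 (fun i => l (u, i)) := c2.mpr ⟨a1, a2⟩
        rw [if_neg k0, if_neg k1, if_pos k2, if_neg a1, if_neg a2]
        ring
  · rw [if_neg hi]
    by_cases hex : (l (u, 1) = cj (l (u, 0)) ∧ l (u, 3) = cj (l (u, 2))) ∨
        (l (u, 2) = cj (l (u, 0)) ∧ l (u, 3) = cj (l (u, 1))) ∨
        (l (u, 3) = cj (l (u, 0)) ∧ l (u, 2) = cj (l (u, 1)))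
    · have hni : ¬ (l (u, 0) ≠ l (u, 1) ∧ l (u, 0) ≠ l (u, 2) ∧ l (u, 0) ≠ l (u, 3) ∧
          l (u, 1) ≠ l (u, 2) ∧ l (u, 1) ≠ l (u, 3) ∧ l (u, 2) ≠ l (u, 3)) :=
        fun h => hi ((G1_inj4 _).mpr h)
      have hp : ∀ k l : Fin 4, k ≠ l → ((u, k) : V × Fin 4) ≠ (u, l) := fun k l h h' =>
        h (congrArg Prod.snd h')
      have hset : ∀ a b c d : Fin 4, (∀ k, k = a ∨ k = b ∨ k = c ∨ k = d) →
          dts (insert u L.toFinset) = dts L.toFinset ∪ {(u, a), (u, b), (u, c), (u, d)} := by
        intro a b c d hall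
        ext ⟨v, i⟩
        simp only [dts, mem_product, mem_insert, mem_univ, and_true, mem_union, mem_singleton,
          Prod.mk.injEq]
        constructor
        · rintro (rfl | h)
          · right
            rcases hall i with rfl | rfl | rfl | rfl <;> simp
          · exact Or.inl h
        · rintro (h | ⟨rfl, -⟩ | ⟨rfl, -⟩ | ⟨rfl, -⟩ | ⟨rfl, -⟩)
          · exact Or.inr h
          all_goals exact Or.inl rfl
      have hgen : ∀ a b c d : Fin 4, a ≠ b → a ≠ c → a ≠ d → b ≠ c → b ≠ d → c ≠ d →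
          (∀ k, k = a ∨ k = b ∨ k = c ∨ k = d) → l (u, b) = l (u, a) → l (u, c) = cj (l (u, a)) →
          l (u, d) = cj (l (u, a)) →
          (-1 : ℤ) ^ (lp e (u, a) (u, c) + lp (join e (u, a) (u, c)) (u, b) (u, d) +
            kl (fun d => (l d).1) L (join (join e (u, a) (u, c)) (u, b) (u, d))) =
          -(-1 : ℤ) ^ (lp e (u, a) (u, d) + lp (join e (u, a) (u, d)) (u, b) (u, c) +
            kl (fun d => (l d).1) L (join (join e (u, a) (u, d)) (u, b) (u, c))) := by
        intro a b c d hab hac had hbc hbd hcd hall l1 l2 l3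
        have hs := hset a b c d hall
        refine hG1a V L e l (u, a) (u, b) (u, c) (u, d) hL' ?_ ?_ ?_ ?_ hinj l1 l2 l3
        · simp [hab, hac, had, hbc, hbd, hcd]
        · intro z hz
          simp only [List.mem_cons, List.not_mem_nil, or_false] at hz
          rcases hz with rfl | rfl | rfl | rfl <;> exact hu
        · rw [← hs]; exact hA
        · rw [← hs]; exact hl.1
      have hne : ∀ k, e (u, k) ≠ (u, k) := fun k => (hA.2 _).mpr (by unfold dts; simp)
      have hinv : ∀ a b : Fin 4, a ≠ b → ∀ d, join e (u, a) (u, b) (join e (u, a) (u, b) d) = d :=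
        fun a b hab => join_invol e hA.1 (hp _ _ hab) (hne a) (hne b)
      have hcn : ∀ a : Bool × Bool, a ≠ cj a := fun a h => G1_cj_ne a h.symm
      rcases G1_dec2 _ _ _ _ hni hex with ⟨e1, e2, e3⟩ | ⟨e1, e2, e3⟩ | ⟨e1, e2, e3⟩
      · have k0 : ¬ G1_cp 0 (fun i => l (u, i)) := fun h => by
          have h1 := (c0.mp h).1
          rw [e1] at h1
          exact hcn _ h1
        have k1 : G1_cp 1 (fun i => l (u, i)) := c1.mpr ⟨e2, by rw [e3, e1]⟩
        have k2 : G1_cp 2 (fun i => l (u, i)) := c2.mpr ⟨e3, by rw [e2, e1]⟩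
        rw [if_neg k0, if_pos k1, if_pos k2]
        have h := hgen 0 1 2 3 (by decide) (by decide) (by decide) (by decide) (by decide)
          (by decide) (by decide) e1 e2 e3
        change (-1 : ℤ) ^ (ls e u 1 + kl (fun d => (l d).1) L (sm e u 1)) =
          -(-1 : ℤ) ^ (ls e u 2 + kl (fun d => (l d).1) L (sm e u 2)) at h
        rw [h]
        ring
      · have k0 : G1_cp 0 (fun i => l (u, i)) := c0.mpr ⟨e2, by rw [e3, e1]⟩
        have k1 : ¬ G1_cp 1 (fun i => l (u, i)) := fun h => by
          have h1 := (c1.mp h).1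
          rw [e1] at h1
          exact hcn _ h1
        have k2 : G1_cp 2 (fun i => l (u, i)) := c2.mpr ⟨e3, by rw [e2, e1, G1_cjcj]⟩
        rw [if_pos k0, if_neg k1, if_pos k2]
        have h := hgen 0 2 1 3 (by decide) (by decide) (by decide) (by decide) (by decide)
          (by decide) (by decide) e1 e2 e3
        rw [join_symm _ (hinv 0 3 (by decide)) (u, 2) (u, 1),
          lp_symm _ (hinv 0 3 (by decide)) (u, 2) (u, 1)] at h
        change (-1 : ℤ) ^ (ls e u 0 + kl (fun d => (l d).1) L (sm e u 0)) =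
          -(-1 : ℤ) ^ (ls e u 2 + kl (fun d => (l d).1) L (sm e u 2)) at h
        rw [h]
        ring
      · have k0 : G1_cp 0 (fun i => l (u, i)) := c0.mpr ⟨e2, by rw [e3, e1, G1_cjcj]⟩
        have k1 : G1_cp 1 (fun i => l (u, i)) := c1.mpr ⟨e3, by rw [e2, e1, G1_cjcj]⟩
        have k2 : ¬ G1_cp 2 (fun i => l (u, i)) := fun h => by
          have h1 := (c2.mp h).1
          rw [e1] at h1
          exact hcn _ h1
        rw [if_pos k0, if_pos k1, if_neg k2]
        have h := hgen 0 3 1 2 (by decide) (by decide) (by decide) (by decide) (by decide)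
          (by decide) (by decide) e1 e2 e3
        rw [join_symm _ (hinv 0 1 (by decide)) (u, 3) (u, 2),
          lp_symm _ (hinv 0 1 (by decide)) (u, 3) (u, 2),
          join_symm _ (hinv 0 2 (by decide)) (u, 3) (u, 1),
          lp_symm _ (hinv 0 2 (by decide)) (u, 3) (u, 1)] at h
        change (-1 : ℤ) ^ (ls e u 0 + kl (fun d => (l d).1) L (sm e u 0)) =
          -(-1 : ℤ) ^ (ls e u 1 + kl (fun d => (l d).1) L (sm e u 1)) at h
        rw [h]
        ring
    · rw [not_or, not_or] at hex
      rw [if_neg (fun h => hex.1 (c0.mp h)), if_neg (fun h => hex.2.1 (c1.mp h)),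
        if_neg (fun h => hex.2.2 (c2.mp h))]
      ring

end G1aux2

theorem G1 (hG1a : G1a_stmt) : G1_stmt := by
  classical
  intro V _ _ L
  induction L with
  | nil =>
    intro e _ _
    have h1 : (univ : Finset (V × Fin 4 → Bool × Bool)).filter (fun l => IsLab [] e l) =
        {fun _ => (false, false)} := by
      ext l
      rw [mem_filter, mem_singleton]
      constructor
      · rintro ⟨-, h⟩
        funext d
        exact h.2.1 d (List.not_mem_nil)
      · rintro rfl
        refine ⟨mem_univ _, fun d hd => absurd hd (List.not_mem_nil), fun _ _ => rfl,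
          fun u hu => absurd hu (List.not_mem_nil)⟩
    rw [h1, Finset.sum_singleton]
    rfl
  | cons u L ih =>
    intro e hL hA
    obtain ⟨hu, hL'⟩ := List.nodup_cons.mp hL
    rw [List.toFinset_cons] at hA
    have huF : u ∉ L.toFinset := fun h => hu (List.mem_toFinset.mp h)
    have hA' : ∀ t, Act (dts L.toFinset) (sm e u t) := fun t => G1_act _ u huF e hA t
    let W : Fin 3 → (V × Fin 4 → Bool × Bool) → ℤ := fun t l =>
      if ∀ v ∈ L, Function.Injective fun i => l (v, i) then
        (-1 : ℤ) ^ kl (fun d => (l d).1) L (sm e u t) else 0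
    have hW : ∀ t, ∀ l l' : V × Fin 4 → Bool × Bool, (∀ z, z.1 ≠ u → l z = l' z) →
        W t l = W t l' := by
      intro t l l' hll
      have h1 : ∀ v ∈ L, ∀ i, l (v, i) = l' (v, i) := fun v hv i =>
        hll (v, i) (fun h => hu (by rw [← show v = u from h]; exact hv))
      have h2 : (∀ v ∈ L, Function.Injective fun i => l (v, i)) ↔
          (∀ v ∈ L, Function.Injective fun i => l' (v, i)) := by
        refine forall₂_congr fun v hv => ?_
        rw [show (fun i => l (v, i)) = fun i => l' (v, i) from funext (h1 v hv)]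
      have h3 : kl (fun d => (l d).1) L (sm e u t) = kl (fun d => (l' d).1) L (sm e u t) :=
        G1_kl_congr L _ _ _ (fun v hv i => by rw [h1 v hv i])
      simp only [W]
      by_cases hc : ∀ v ∈ L, Function.Injective fun i => l (v, i)
      · rw [if_pos hc, if_pos (h2.mp hc), h3]
      · rw [if_neg hc, if_neg (fun h => hc (h2.mpr h))]
    have hZ : Z (-4) (u :: L) e = ∑ t : Fin 3, ∑ l : V × Fin 4 → Bool × Bool,
        (if G1_Cj (dts (insert u L.toFinset)) e l ∧ G1_cp t (fun i => l (u, i)) then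
          (-1 : ℤ) ^ ls e u t * W t l else 0) := by
      show ∑ t : Fin 3, (-4) ^ ls e u t * Z (-4) L (sm e u t) = _
      refine Finset.sum_congr rfl fun t _ => ?_
      have e1 : ∀ l : V × Fin 4 → Bool × Bool,
          (if G1_Cj (dts (insert u L.toFinset)) e l ∧ G1_cp t (fun i => l (u, i)) then
          (-1 : ℤ) ^ ls e u t * W t l else 0) = (-1 : ℤ) ^ ls e u t *
          (if G1_Cj (dts (insert u L.toFinset)) e l ∧ G1_cp t (fun i => l (u, i)) then
          W t l else 0) := by
        intro l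
        split_ifs <;> ring
      rw [Finset.sum_congr rfl fun l _ => e1 l, ← Finset.mul_sum,
        G1_sm L.toFinset u huF e hA t (W t) (hW t), ih (sm e u t) hL' (hA' t), Finset.sum_filter,
        ← mul_assoc, ← mul_pow]
      have e2 : ((-1 : ℤ) * 4) = -4 := by norm_num
      rw [e2]
      congr 1
      refine Finset.sum_congr rfl fun l _ => ?_
      have h1 := G1_isLab L (sm e u t) l
      simp only [W]
      by_cases c1 : G1_Cj (dts L.toFinset) (sm e u t) l <;>
        by_cases c2 : ∀ v ∈ L, Function.Injective fun i => l (v, i)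
      · rw [if_pos (h1.mpr ⟨c1, c2⟩), if_pos c1, if_pos c2]
      · rw [if_neg (fun h => c2 (h1.mp h).2), if_pos c1, if_neg c2]
      · rw [if_neg (fun h => c1 (h1.mp h).1), if_neg c1]
      · rw [if_neg (fun h => c1 (h1.mp h).1), if_neg c1]
    rw [hZ, Finset.sum_comm, Finset.sum_filter]
    refine Finset.sum_congr rfl fun l _ => ?_
    have h1 := G1_isLab (u :: L) e l
    rw [List.toFinset_cons] at h1
    by_cases c1 : G1_Cj (dts (insert u L.toFinset)) e l
    · by_cases c2 : ∀ v ∈ L, Function.Injective fun i => l (v, i)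
      · have h2 := G1_local hG1a u L e hL hA l c1 c2
        have e3 : ∀ t : Fin 3, (if G1_Cj (dts (insert u L.toFinset)) e l ∧
            G1_cp t (fun i => l (u, i)) then (-1 : ℤ) ^ ls e u t * W t l else 0) =
            (if G1_cp t (fun i => l (u, i)) then
              (-1 : ℤ) ^ (ls e u t + kl (fun d => (l d).1) L (sm e u t)) else 0) := by
          intro t
          simp only [W]
          by_cases c3 : G1_cp t (fun i => l (u, i))
          · rw [if_pos ⟨c1, c3⟩, if_pos c3, if_pos c2, pow_add]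
          · rw [if_neg (fun h => c3 h.2), if_neg c3]
        rw [Finset.sum_congr rfl fun t _ => e3 t, h2]
        by_cases c4 : Function.Injective (fun i => l (u, i))
        · rw [if_pos c4, if_pos (h1.mpr ⟨c1, fun v hv => by
            rcases List.mem_cons.mp hv with rfl | hv
            · exact c4
            · exact c2 v hv⟩)]
        · rw [if_neg c4, if_neg (fun h => c4 ((h1.mp h).2 u List.mem_cons_self))]
      · rw [if_neg (fun h => c2 (fun v hv => (h1.mp h).2 v (List.mem_cons_of_mem _ hv)))]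
        refine Finset.sum_eq_zero fun t _ => ?_
        simp only [W]
        rw [if_neg c2]
        split_ifs <;> simp
    · rw [if_neg (fun h => c1 (h1.mp h).1)]
      refine Finset.sum_eq_zero fun t _ => ?_
      rw [if_neg (fun h => c1 h.1)]

end CT
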