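import Pool.Agent.helper56.CT.SpecB

namespace CT
open Finset

section A4aux
variable {E N : Type} [Fintype E] [Fintype N] [DecidableEq E] [DecidableEq N]

theorem A4_g2_comm (a b : N) : g2 a b = g2 b a := by
  funext n
  unfold g2
  by_cases h1 : n = a
  · by_cases h2 : n = b
    · rw [if_pos h1, if_pos h2, ← h1, ← h2]
    · rw [if_pos h1, if_neg h2, if_pos h1]
  · by_cases h2 : n = b
    · rw [if_neg h1, if_pos h2, if_pos h2]
    · rw [if_neg h1, if_neg h2, if_neg h2, if_neg h1]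

theorem A4_sum_prod (S : Finset E) :
    ∑ x : E → ZMod 2, ∏ e ∈ S, x e = if S = univ then 1 else 0 := by
  have h1 : ∀ x : E → ZMod 2, ∏ e ∈ S, x e = ∏ e, (if e ∈ S then x e else 1) := by
    intro x
    rw [Finset.prod_ite_mem, Finset.univ_inter]
  have h2 : ∑ x : E → ZMod 2, ∏ e, (if e ∈ S then x e else 1) =
      ∏ e : E, ∑ v : ZMod 2, (if e ∈ S then v else 1) := by
    rw [Finset.prod_univ_sum, Fintype.piFinset_univ]
  have h3 : ∀ e : E, ∑ v : ZMod 2, (if e ∈ S then v else 1) = if e ∈ S then (1 : ZMod 2) else 0 := by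
    intro e
    by_cases h : e ∈ S
    · simp only [h, if_true]; decide
    · simp only [h, if_false]; decide
  rw [Finset.sum_congr rfl fun x _ => h1 x, h2, Finset.prod_congr rfl fun e _ => h3 e,
    Finset.prod_ite_zero]
  by_cases h : S = univ
  · rw [if_pos h, if_pos (fun i _ => by rw [h]; exact mem_univ i)]
    exact Finset.prod_const_one
  · rw [if_neg h, if_neg (fun h' => h (Finset.eq_univ_of_forall fun i => h' i (mem_univ i)))]

theorem A4_prod_mul (x : E → ZMod 2) (S S' : Finset E) :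
    (∏ e ∈ S, x e) * (∏ e ∈ S', x e) = ∏ e ∈ S ∪ S', x e := by
  have h1 : ∀ S : Finset E, ∏ e ∈ S, x e = ∏ e, (if e ∈ S then x e else 1) := by
    intro S
    rw [Finset.prod_ite_mem, Finset.univ_inter]
  have hid : ∀ v : ZMod 2, v * v = v := by decide
  rw [h1 S, h1 S', h1 (S ∪ S'), ← Finset.prod_mul_distrib]
  refine Finset.prod_congr rfl fun e _ => ?_
  by_cases h : e ∈ S <;> by_cases h' : e ∈ S' <;> simp [h, h', hid]

theorem A4_sum_hT (inc : E → N → ZMod 2) (g : N → Option N) (h : ¬ KTn inc g ∅) :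
    ∑ x : E → ZMod 2, hT inc g x = 0 := by
  classical
  unfold hT
  rw [Finset.sum_comm]
  refine Finset.sum_eq_zero fun T hT => ?_
  rw [A4_sum_prod, if_neg]
  intro h'
  rw [Finset.compl_eq_univ_iff] at h'
  subst h'
  exact h (Finset.mem_filter.mp hT).2

open Classical in
theorem A4_sum_mul (inc : E → N → ZMod 2) (g g' : N → Option N)
    (h : ∀ T T', KTn inc g T → KTn inc g' T' → T.card + T'.card = Fintype.card E) :
    ∑ x : E → ZMod 2, hT inc g x * hT inc g' x =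
      ∑ T : Finset E, if KTn inc g T ∧ KTn inc g' Tᶜ then (1 : ZMod 2) else 0 := by
  unfold hT
  simp only [Finset.sum_mul_sum]
  rw [Finset.sum_comm, Finset.sum_filter]
  refine Finset.sum_congr rfl fun T _ => ?_
  by_cases hT : KTn inc g T
  · rw [if_pos hT, Finset.sum_comm]
    simp only [A4_prod_mul, A4_sum_prod]
    rw [Finset.sum_filter]
    have h1 : ∀ T' : Finset E, (if KTn inc g' T' then (if Tᶜ ∪ T'ᶜ = univ then (1 : ZMod 2) else 0) else 0)
        = if T' = Tᶜ then (if KTn inc g' Tᶜ then 1 else 0) else 0 := by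
      intro T'
      by_cases hT' : KTn inc g' T'
      · have hc := h T T' hT hT'
        by_cases he : T' = Tᶜ
        · subst he
          rw [if_pos hT', if_pos (by rw [compl_compl]; exact compl_sup_eq_top), if_pos rfl, if_pos hT']
        · rw [if_pos hT', if_neg he, if_neg]
          intro hu
          apply he
          have hd : Disjoint T T' := by
            rw [Finset.disjoint_left]
            intro e he1 he2
            have := hu ▸ mem_univ e
            rw [mem_union, mem_compl, mem_compl] at this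
            tauto
          have h3 : T' ⊆ Tᶜ := by
            intro e he2
            rw [mem_compl]
            intro he1
            exact (Finset.disjoint_left.mp hd) he1 he2
          refine Finset.eq_of_subset_of_card_le h3 ?_
          rw [Finset.card_compl]
          omega
      · rw [if_neg hT']
        by_cases he : T' = Tᶜ
        · subst he
          rw [if_pos rfl, if_neg hT']
        · rw [if_neg he]
    rw [Finset.sum_congr rfl fun T' _ => h1 T', Finset.sum_ite_eq' ]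
    simp [hT]
  · rw [if_neg hT, if_neg (fun h' => hT h'.1)]

theorem A4_dec : ∀ u v w z : ZMod 2,
    (8 : ℤ) ∣ (((univ : Finset (Fin 3 → ZMod 2)).filter fun β =>
      u * (β 1 * β 2 + β 0 * β 2 + β 0 * β 1) + v * β 2 + w * β 1 + (v + w) * β 0 + z = 1).card : ℤ)
      - 4 * (if u = 0 ∧ v = 0 ∧ w = 0 then 0 else 1) := by
  decide

theorem A4_dec2 : ∀ u v w : ZMod 2,
    (if u = 0 ∧ v = 0 ∧ w = 0 then (0 : ZMod 2) else 1) =
      u + v + w + u * v + u * w + (1 + u) * (v * w) := by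
  decide

theorem A4_disj1 (T : Finset E) (i : Fin 3) :
    T.map Function.Embedding.inl ∪ {Sum.inr i} = T.disjSum {i} := by
  ext x
  rcases x with x | x <;> simp

theorem A4_disj2 (T : Finset E) (i j : Fin 3) :
    T.map Function.Embedding.inl ∪ {Sum.inr i, Sum.inr j} = T.disjSum {i, j} := by
  ext x
  rcases x with x | x <;> simp

theorem A4_compl (T : Finset E) (A : Finset (Fin 3)) : (T.disjSum A)ᶜ = Tᶜ.disjSum Aᶜ := by
  ext x
  rcases x with x | x <;> simp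

theorem A4_fin3 (G : Finset (Fin 3) → ℤ) : ∑ A, G A = G ∅ + G {0} + G {1} + G {2} + G {0, 1} +
    G {0, 2} + G {1, 2} + G {0, 1, 2} := by
  rw [show (univ : Finset (Finset (Fin 3))) =
    {∅, {0}, {1}, {2}, {0, 1}, {0, 2}, {1, 2}, {0, 1, 2}} from by decide]
  rw [Finset.sum_insert (by decide), Finset.sum_insert (by decide), Finset.sum_insert (by decide),
    Finset.sum_insert (by decide), Finset.sum_insert (by decide), Finset.sum_insert (by decide),
    Finset.sum_insert (by decide), Finset.sum_singleton]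
  ring

end A4aux

theorem A4 (hA1 : A1_stmt) (hA2 : A2_stmt) (hA3a : A3a_stmt) (hA3b : A3b_stmt) (hA3c : A3c_stmt)
    (hA3d : A3d_stmt) (hA3e : A3e_stmt) : A4_stmt := by
  classical
  intro E N _ _ _ _ inc a h2 hinj hcard h4
  have n01 : a 0 ≠ a 1 := fun h => by have := hinj h; revert this; decide
  have n02 : a 0 ≠ a 2 := fun h => by have := hinj h; revert this; decide
  have n12 : a 1 ≠ a 2 := fun h => by have := hinj h; revert this; decide
  have hL : ∀ T, LT inc T ↔ KTn inc (g1 (a 0)) T := fun T => (hA3a E N inc a T 0 h2).2.2 (a 0)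
  have d1 : ∀ T, KTn inc (g2 (a 0) (a 1)) T →
      (KTn inc (g2 (a 0) (a 2)) T ∧ ¬ KTn inc (g2 (a 1) (a 2)) T) ∨
      (¬ KTn inc (g2 (a 0) (a 2)) T ∧ KTn inc (g2 (a 1) (a 2)) T) := fun T =>
    (hA3d E N inc T (a 0) (a 1) (a 2) h2 n01 n02 n12).1
  have d2 : ∀ T, KTn inc (g2 (a 0) (a 2)) T →
      (KTn inc (g2 (a 0) (a 1)) T ∧ ¬ KTn inc (g2 (a 1) (a 2)) T) ∨
      (¬ KTn inc (g2 (a 0) (a 1)) T ∧ KTn inc (g2 (a 1) (a 2)) T) := fun T => by
    have := (hA3d E N inc T (a 0) (a 2) (a 1) h2 n02 n01 n12.symm).1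
    rwa [A4_g2_comm (a 2) (a 1)] at this
  have d3 : ∀ T, KTn inc (g2 (a 1) (a 2)) T →
      (KTn inc (g2 (a 0) (a 1)) T ∧ ¬ KTn inc (g2 (a 0) (a 2)) T) ∨
      (¬ KTn inc (g2 (a 0) (a 1)) T ∧ KTn inc (g2 (a 0) (a 2)) T) := fun T => by
    have := (hA3d E N inc T (a 1) (a 2) (a 0) h2 n12 n01.symm n02.symm).1
    rwa [A4_g2_comm (a 1) (a 0), A4_g2_comm (a 2) (a 0)] at this
  have dq : ∀ T, KTn inc (g3 (a 0) (a 1) (a 2)) T ↔
      KTn inc (g2 (a 0) (a 1)) T ∧ KTn inc (g2 (a 0) (a 2)) T := fun T =>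
    (hA3d E N inc T (a 0) (a 1) (a 2) h2 n01 n02 n12).2
  have hsum : ∀ x : E → ZMod 2, hT inc (g2 (a 0) (a 1)) x + hT inc (g2 (a 0) (a 2)) x =
      hT inc (g2 (a 1) (a 2)) x := by
    intro x
    have hc : ∀ u v w : ZMod 2, u + v + w = 0 → u + v = w := by decide
    apply hc
    unfold hT
    rw [Finset.sum_filter, Finset.sum_filter, Finset.sum_filter, ← Finset.sum_add_distrib,
      ← Finset.sum_add_distrib]
    refine Finset.sum_eq_zero fun T _ => ?_
    have hh : ∀ v : ZMod 2, v + v = 0 := by decide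
    have i1 := d1 T
    have i2 := d2 T
    have i3 := d3 T
    by_cases p1 : KTn inc (g2 (a 0) (a 1)) T <;> by_cases p2 : KTn inc (g2 (a 0) (a 2)) T <;>
      by_cases p3 : KTn inc (g2 (a 1) (a 2)) T <;> simp_all
  have hmul : ∀ x : E → ZMod 2, (1 + hT inc (g1 (a 0)) x) *
      (hT inc (g2 (a 0) (a 1)) x * hT inc (g2 (a 0) (a 2)) x) =
      (1 + hT inc (g1 (a 0)) x) * hT inc (g3 (a 0) (a 1) (a 2)) x := by
    intro x
    have e0 := hA1 E N inc (g1 (a 0)) x
    have e1 := hA1 E N inc (g2 (a 0) (a 1)) x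
    have e2 := hA1 E N inc (g2 (a 0) (a 2)) x
    have e3 := hA1 E N inc (g3 (a 0) (a 1) (a 2)) x
    rw [← e0, ← e1, ← e2, ← e3]
    by_cases hN : NSn inc (g1 (a 0)) x
    · rw [if_pos hN]
      have : (1 : ZMod 2) + 1 = 0 := by decide
      rw [this, zero_mul, zero_mul]
    · have := hA2 E N inc x (a 0) (a 1) (a 2) h2 n01 n02 n12 hN
      clear e0 e1 e2 e3
      by_cases p1 : NSn inc (g2 (a 0) (a 1)) x <;> by_cases p2 : NSn inc (g2 (a 0) (a 2)) x <;>
        by_cases p3 : NSn inc (g3 (a 0) (a 1) (a 2)) x <;> simp [p1, p2, p3] at this ⊢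
  obtain ⟨h, hh⟩ := hA3e E N inc a h2 hinj
  have hF0 : ∀ x, PsiLT inc x = hT inc (g1 (a 0)) x := by
    intro x
    unfold PsiLT hT
    refine Finset.sum_congr ?_ fun _ _ => rfl
    ext T
    rw [Finset.mem_filter, Finset.mem_filter, hL T]
  -- the points
  have hN0 : (8 : ℤ) ∣ (((univ : Finset (E ⊕ Fin 3 → ZMod 2)).filter fun α =>
        PsiLT (incF inc a) α = 1).card : ℤ) -
      4 * ∑ x : E → ZMod 2, (if hT inc (g1 (a 0)) x = 0 ∧ hT inc (g2 (a 0) (a 1)) x = 0 ∧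
        hT inc (g2 (a 0) (a 2)) x = 0 then (0 : ℤ) else 1) := by
    have e1 : (((univ : Finset (E ⊕ Fin 3 → ZMod 2)).filter fun α =>
        PsiLT (incF inc a) α = 1).card : ℤ) = ∑ x : E → ZMod 2,
          (((univ : Finset (Fin 3 → ZMod 2)).filter fun β =>
            hT inc (g1 (a 0)) x * (β 1 * β 2 + β 0 * β 2 + β 0 * β 1) +
            hT inc (g2 (a 0) (a 1)) x * β 2 + hT inc (g2 (a 0) (a 2)) x * β 1 +
            (hT inc (g2 (a 0) (a 1)) x + hT inc (g2 (a 0) (a 2)) x) * β 0 + h x = 1).card : ℤ) := by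
      rw [Finset.card_filter, ← (Equiv.sumArrowEquivProdArrow E (Fin 3) (ZMod 2)).symm.sum_comp,
        Fintype.sum_prod_type]
      push_cast
      refine Finset.sum_congr rfl fun x _ => ?_
      rw [Finset.card_filter]
      push_cast
      refine Finset.sum_congr rfl fun β _ => ?_
      have e2 : (Equiv.sumArrowEquivProdArrow E (Fin 3) (ZMod 2)).symm (x, β) = Sum.elim x β := rfl
      rw [e2, hh x β, hF0, hsum]
    rw [e1, Finset.mul_sum, ← Finset.sum_sub_distrib]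
    exact Finset.dvd_sum fun x _ => A4_dec _ _ _ _
  -- the numbers
  let S : (Finset E → Prop) → ℤ := fun p => ∑ T : Finset E, if LT inc T ∧ p Tᶜ then (1 : ℤ) else 0
  let P1 : Finset E → Prop := KTn inc (g2 (a 0) (a 1))
  let P2 : Finset E → Prop := KTn inc (g2 (a 0) (a 2))
  let P3 : Finset E → Prop := KTn inc (g2 (a 1) (a 2))
  have s1 : S P1 = S (fun T => P1 T ∧ P2 T) + S (fun T => P1 T ∧ P3 T) := by
    simp only [S]
    rw [← Finset.sum_add_distrib]
    refine Finset.sum_congr rfl fun T _ => ?_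
    have i1 := d1 Tᶜ
    have i2 := d2 Tᶜ
    have i3 := d3 Tᶜ
    change P1 Tᶜ → (P2 Tᶜ ∧ ¬ P3 Tᶜ) ∨ (¬ P2 Tᶜ ∧ P3 Tᶜ) at i1
    change P2 Tᶜ → (P1 Tᶜ ∧ ¬ P3 Tᶜ) ∨ (¬ P1 Tᶜ ∧ P3 Tᶜ) at i2
    change P3 Tᶜ → (P1 Tᶜ ∧ ¬ P2 Tᶜ) ∨ (¬ P1 Tᶜ ∧ P2 Tᶜ) at i3
    by_cases l : LT inc T <;> by_cases p1 : P1 Tᶜ <;> by_cases p2 : P2 Tᶜ <;>
      by_cases p3 : P3 Tᶜ <;> simp [l, p1, p2, p3] at i1 i2 i3 ⊢
  have s2 : S P2 = S (fun T => P1 T ∧ P2 T) + S (fun T => P2 T ∧ P3 T) := by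
    simp only [S]
    rw [← Finset.sum_add_distrib]
    refine Finset.sum_congr rfl fun T _ => ?_
    have i1 := d1 Tᶜ
    have i2 := d2 Tᶜ
    have i3 := d3 Tᶜ
    change P1 Tᶜ → (P2 Tᶜ ∧ ¬ P3 Tᶜ) ∨ (¬ P2 Tᶜ ∧ P3 Tᶜ) at i1
    change P2 Tᶜ → (P1 Tᶜ ∧ ¬ P3 Tᶜ) ∨ (¬ P1 Tᶜ ∧ P3 Tᶜ) at i2
    change P3 Tᶜ → (P1 Tᶜ ∧ ¬ P2 Tᶜ) ∨ (¬ P1 Tᶜ ∧ P2 Tᶜ) at i3
    by_cases l : LT inc T <;> by_cases p1 : P1 Tᶜ <;> by_cases p2 : P2 Tᶜ <;>
      by_cases p3 : P3 Tᶜ <;> simp [l, p1, p2, p3] at i1 i2 i3 ⊢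
  have s3 : S P3 = S (fun T => P1 T ∧ P3 T) + S (fun T => P2 T ∧ P3 T) := by
    simp only [S]
    rw [← Finset.sum_add_distrib]
    refine Finset.sum_congr rfl fun T _ => ?_
    have i1 := d1 Tᶜ
    have i2 := d2 Tᶜ
    have i3 := d3 Tᶜ
    change P1 Tᶜ → (P2 Tᶜ ∧ ¬ P3 Tᶜ) ∨ (¬ P2 Tᶜ ∧ P3 Tᶜ) at i1
    change P2 Tᶜ → (P1 Tᶜ ∧ ¬ P3 Tᶜ) ∨ (¬ P1 Tᶜ ∧ P3 Tᶜ) at i2
    change P3 Tᶜ → (P1 Tᶜ ∧ ¬ P2 Tᶜ) ∨ (¬ P1 Tᶜ ∧ P2 Tᶜ) at i3
    by_cases l : LT inc T <;> by_cases p1 : P1 Tᶜ <;> by_cases p2 : P2 Tᶜ <;>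
      by_cases p3 : P3 Tᶜ <;> simp [l, p1, p2, p3] at i1 i2 i3 ⊢
  have hTT : (((univ : Finset (Finset (E ⊕ Fin 3))).filter fun T =>
        LT (incF inc a) T ∧ LT (incF inc a) Tᶜ).card : ℤ) = 2 * (S P1 + S P2 + S P3) := by
    have L0 : ∀ T : Finset E, ¬ LT (incF inc a) (T.disjSum ∅) := by
      intro T
      rw [Finset.disjSum_empty]
      exact (hA3a E N inc a T 0 h2).1
    have L1 : ∀ (T : Finset E) (i : Fin 3), LT (incF inc a) (T.disjSum {i}) ↔ LT inc T := by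
      intro T i
      rw [← A4_disj1]
      exact (hA3a E N inc a T i h2).2.1
    have L2 : ∀ (T : Finset E) (i j : Fin 3), i ≠ j →
        (LT (incF inc a) (T.disjSum {i, j}) ↔ KTn inc (g2 (a i) (a j)) T) := by
      intro T i j hij
      rw [← A4_disj2]
      exact hA3b E N inc a T i j h2 hinj hij
    have L01 : ∀ T : Finset E, LT (incF inc a) (T.disjSum {0, 1}) ↔ P1 T :=
      fun T => L2 T 0 1 (by decide)
    have L02 : ∀ T : Finset E, LT (incF inc a) (T.disjSum {0, 2}) ↔ P2 T :=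
      fun T => L2 T 0 2 (by decide)
    have L12 : ∀ T : Finset E, LT (incF inc a) (T.disjSum {1, 2}) ↔ P3 T :=
      fun T => L2 T 1 2 (by decide)
    have c0 : (∅ : Finset (Fin 3))ᶜ = {0, 1, 2} := by decide
    have c1 : ({0} : Finset (Fin 3))ᶜ = {1, 2} := by decide
    have c2 : ({1} : Finset (Fin 3))ᶜ = {0, 2} := by decide
    have c3 : ({2} : Finset (Fin 3))ᶜ = {0, 1} := by decide
    have c4 : ({0, 1} : Finset (Fin 3))ᶜ = {2} := by decide
    have c5 : ({0, 2} : Finset (Fin 3))ᶜ = {1} := by decide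
    have c6 : ({1, 2} : Finset (Fin 3))ᶜ = {0} := by decide
    have c7 : ({0, 1, 2} : Finset (Fin 3))ᶜ = ∅ := by decide
    have e1 : (((univ : Finset (Finset (E ⊕ Fin 3))).filter fun T =>
        LT (incF inc a) T ∧ LT (incF inc a) Tᶜ).card : ℤ) =
        ∑ T : Finset E, ∑ A : Finset (Fin 3),
          if LT (incF inc a) (T.disjSum A) ∧ LT (incF inc a) (Tᶜ.disjSum Aᶜ) then (1 : ℤ) else 0 := by
      rw [Finset.card_filter, ← (Finset.sumEquiv (α := E) (β := Fin 3)).symm.toEquiv.sum_comp,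
        Fintype.sum_prod_type]
      push_cast
      refine Finset.sum_congr rfl fun T _ => Finset.sum_congr rfl fun A _ => ?_
      have e2 : (Finset.sumEquiv (α := E) (β := Fin 3)).symm.toEquiv (T, A) = T.disjSum A := rfl
      rw [e2, A4_compl]
    have e3 : ∀ T : Finset E, ∑ A : Finset (Fin 3),
        (if LT (incF inc a) (T.disjSum A) ∧ LT (incF inc a) (Tᶜ.disjSum Aᶜ) then (1 : ℤ) else 0) =
        ((if LT inc T ∧ P1 Tᶜ then (1 : ℤ) else 0) + (if LT inc T ∧ P2 Tᶜ then (1 : ℤ) else 0) +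
          (if LT inc T ∧ P3 Tᶜ then (1 : ℤ) else 0)) +
        ((if LT inc Tᶜ ∧ P1 T then (1 : ℤ) else 0) + (if LT inc Tᶜ ∧ P2 T then (1 : ℤ) else 0) +
          (if LT inc Tᶜ ∧ P3 T then (1 : ℤ) else 0)) := by
      intro T
      rw [A4_fin3]
      simp only [c0, c1, c2, c3, c4, c5, c6, c7, L0, L1, L01, L02, L12, false_and, and_false,
        if_false]
      simp only [and_comm (b := LT inc Tᶜ)]
      ring
    rw [e1, Finset.sum_congr rfl fun T _ => e3 T, Finset.sum_add_distrib]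
    have e4 : ∑ T : Finset E, ((if LT inc Tᶜ ∧ P1 T then (1 : ℤ) else 0) +
        (if LT inc Tᶜ ∧ P2 T then (1 : ℤ) else 0) + (if LT inc Tᶜ ∧ P3 T then (1 : ℤ) else 0)) =
        ∑ T : Finset E, ((if LT inc T ∧ P1 Tᶜ then (1 : ℤ) else 0) +
        (if LT inc T ∧ P2 Tᶜ then (1 : ℤ) else 0) + (if LT inc T ∧ P3 Tᶜ then (1 : ℤ) else 0)) := by
      refine Finset.sum_bij (fun T _ => Tᶜ) (fun _ _ => mem_univ _) ?_ ?_ ?_
      · intro T _ T' _ h
        exact compl_injective h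
      · intro T _
        exact ⟨Tᶜ, mem_univ _, compl_compl T⟩
      · intro T _
        simp only [compl_compl]
    rw [e4, Finset.sum_add_distrib, Finset.sum_add_distrib]
    simp only [S]
    ring
  -- parity of the good points
  have hgood : (2 : ℤ) ∣ (∑ x : E → ZMod 2, (if hT inc (g1 (a 0)) x = 0 ∧
      hT inc (g2 (a 0) (a 1)) x = 0 ∧ hT inc (g2 (a 0) (a 2)) x = 0 then (0 : ℤ) else 1)) -
      (S P1 + S P2 + S (fun T => P1 T ∧ P2 T)) := by
    have z1 : ∑ x : E → ZMod 2, hT inc (g1 (a 0)) x = 0 := A4_sum_hT inc _ fun h => by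
      have := (hA3c E N inc ∅ (a 0) (a 1)).1 h
      rw [Finset.card_empty] at this
      omega
    have z2 : ∑ x : E → ZMod 2, hT inc (g2 (a 0) (a 1)) x = 0 := A4_sum_hT inc _ fun h => by
      have := (hA3c E N inc ∅ (a 0) (a 1)).2 n01 h
      rw [Finset.card_empty] at this
      omega
    have z3 : ∑ x : E → ZMod 2, hT inc (g2 (a 0) (a 2)) x = 0 := A4_sum_hT inc _ fun h => by
      have := (hA3c E N inc ∅ (a 0) (a 2)).2 n02 h
      rw [Finset.card_empty] at this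
      omega
    have z4 : ∑ x : E → ZMod 2, hT inc (g3 (a 0) (a 1) (a 2)) x = 0 := A4_sum_hT inc _ fun h => by
      have := (hA3c E N inc ∅ (a 0) (a 1)).2 n01 ((dq ∅).mp h).1
      rw [Finset.card_empty] at this
      omega
    have m1 : ∑ x : E → ZMod 2, hT inc (g1 (a 0)) x * hT inc (g2 (a 0) (a 1)) x =
        ((S P1 : ℤ) : ZMod 2) := by
      rw [A4_sum_mul inc _ _ (fun T T' h1 h2' => by
        have k1 := (hA3c E N inc T (a 0) (a 1)).1 h1
        have k2 := (hA3c E N inc T' (a 0) (a 1)).2 n01 h2'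
        omega)]
      simp only [S]
      push_cast
      refine Finset.sum_congr rfl fun T _ => ?_
      rw [hL T]
    have m2 : ∑ x : E → ZMod 2, hT inc (g1 (a 0)) x * hT inc (g2 (a 0) (a 2)) x =
        ((S P2 : ℤ) : ZMod 2) := by
      rw [A4_sum_mul inc _ _ (fun T T' h1 h2' => by
        have k1 := (hA3c E N inc T (a 0) (a 1)).1 h1
        have k2 := (hA3c E N inc T' (a 0) (a 2)).2 n02 h2'
        omega)]
      simp only [S]
      push_cast
      refine Finset.sum_congr rfl fun T _ => ?_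
      rw [hL T]
    have m3 : ∑ x : E → ZMod 2, hT inc (g1 (a 0)) x * hT inc (g3 (a 0) (a 1) (a 2)) x =
        ((S (fun T => P1 T ∧ P2 T) : ℤ) : ZMod 2) := by
      rw [A4_sum_mul inc _ _ (fun T T' h1 h2' => by
        have k1 := (hA3c E N inc T (a 0) (a 1)).1 h1
        have k2 := (hA3c E N inc T' (a 0) (a 1)).2 n01 ((dq T').mp h2').1
        omega)]
      simp only [S]
      push_cast
      refine Finset.sum_congr rfl fun T _ => ?_
      rw [hL T, dq]
      by_cases hc : KTn inc (g1 (a 0)) T ∧ KTn inc (g2 (a 0) (a 1)) Tᶜ ∧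
          KTn inc (g2 (a 0) (a 2)) Tᶜ
      · rw [if_pos hc]; symm; exact if_pos hc
      · rw [if_neg hc]; symm; exact if_neg hc
    have hgx : ∀ x : E → ZMod 2, (((if hT inc (g1 (a 0)) x = 0 ∧
      hT inc (g2 (a 0) (a 1)) x = 0 ∧ hT inc (g2 (a 0) (a 2)) x = 0 then (0 : ℤ) else 1) : ℤ) : ZMod 2) =
      hT inc (g1 (a 0)) x + hT inc (g2 (a 0) (a 1)) x + hT inc (g2 (a 0) (a 2)) x +
      hT inc (g1 (a 0)) x * hT inc (g2 (a 0) (a 1)) x +
      hT inc (g1 (a 0)) x * hT inc (g2 (a 0) (a 2)) x + hT inc (g3 (a 0) (a 1) (a 2)) x +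
      hT inc (g1 (a 0)) x * hT inc (g3 (a 0) (a 1) (a 2)) x := by
      intro x
      have h1 := A4_dec2 (hT inc (g1 (a 0)) x) (hT inc (g2 (a 0) (a 1)) x) (hT inc (g2 (a 0) (a 2)) x)
      rw [hmul x] at h1
      push_cast
      rw [h1]
      ring
    have hfin : ((((∑ x : E → ZMod 2, (if hT inc (g1 (a 0)) x = 0 ∧
      hT inc (g2 (a 0) (a 1)) x = 0 ∧ hT inc (g2 (a 0) (a 2)) x = 0 then (0 : ℤ) else 1)) -
      (S P1 + S P2 + S (fun T => P1 T ∧ P2 T)) : ℤ)) : ZMod 2) = 0 := by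
      rw [Int.cast_sub, Int.cast_sum, Finset.sum_congr rfl fun x _ => hgx x,
        Finset.sum_add_distrib, Finset.sum_add_distrib, Finset.sum_add_distrib,
        Finset.sum_add_distrib, Finset.sum_add_distrib, Finset.sum_add_distrib,
        z1, z2, z3, z4, m1, m2, m3]
      push_cast
      ring
    exact (ZMod.intCast_zmod_eq_zero_iff_dvd _ 2).mp hfin
  rw [s1, s2] at hgood
  rw [hTT, s1, s2, s3]
  obtain ⟨k, hk⟩ := hN0
  obtain ⟨m, hm⟩ := hgood
  refine ⟨k + m + S (fun T => P1 T ∧ P2 T), ?_⟩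
  linarith

end CT
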