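import Pool.Agent.helper56.CT.SpecA

namespace CT
open Finset

section D9aux
variable {V : Type} [DecidableEq V]

/-- the partner of `k` in the pairing `t` -/
def D9_tau : Fin 3 → Fin 4 → Fin 4
  | 0, 0 => 1 | 0, 1 => 0 | 0, 2 => 3 | 0, 3 => 2
  | 1, 0 => 2 | 1, 2 => 0 | 1, 1 => 3 | 1, 3 => 1
  | 2, 0 => 3 | 2, 3 => 0 | 2, 1 => 2 | 2, 2 => 1

theorem D9_join_other (e : V × Fin 4 → V × Fin 4) (x y z : V × Fin 4) (h1 : z ≠ x) (h2 : z ≠ y)
    (h3 : e z ≠ x) (h4 : e z ≠ y) : join e x y z = e z := by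
  unfold join; simp [h1, h2, h3, h4]

theorem D9_join_l (e : V × Fin 4 → V × Fin 4) (he : ∀ d, e (e d) = d) (x y : V × Fin 4)
    (h1 : e x ≠ x) (h2 : e x ≠ y) : join e x y (e x) = e y := by
  unfold join; simp [h1, h2, he]

theorem D9_join_r (e : V × Fin 4 → V × Fin 4) (he : ∀ d, e (e d) = d) (x y : V × Fin 4)
    (h1 : e y ≠ x) (h2 : e y ≠ y) (h : y ≠ x) : join e x y (e y) = e x := by
  unfold join; simp [h1, h2, he, h]

/-- two joins at four different darts of the same vertex without loops -/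
theorem D9_two (e : V × Fin 4 → V × Fin 4) (he : ∀ d, e (e d) = d) (u : V)
    (hne : ∀ k, (e (u, k)).1 ≠ u) (a b c d : Fin 4) (hab : a ≠ b) (hac : a ≠ c) (had : a ≠ d)
    (hbc : b ≠ c) (hbd : b ≠ d) (hcd : c ≠ d) (hall : ∀ k, k = a ∨ k = b ∨ k = c ∨ k = d) :
    lp e (u, a) (u, b) + lp (join e (u, a) (u, b)) (u, c) (u, d) = 0 ∧
    (∀ i, join (join e (u, a) (u, b)) (u, c) (u, d) (u, i) = (u, i)) ∧
    join (join e (u, a) (u, b)) (u, c) (u, d) (e (u, a)) = e (u, b) ∧
    join (join e (u, a) (u, b)) (u, c) (u, d) (e (u, b)) = e (u, a) ∧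
    join (join e (u, a) (u, b)) (u, c) (u, d) (e (u, c)) = e (u, d) ∧
    join (join e (u, a) (u, b)) (u, c) (u, d) (e (u, d)) = e (u, c) ∧
    ∀ z, z.1 ≠ u → (∀ k, z ≠ e (u, k)) → join (join e (u, a) (u, b)) (u, c) (u, d) z = e z := by
  have hn : ∀ k l, e (u, k) ≠ (u, l) := fun k l h => hne k (by rw [h])
  have hp : ∀ k l : Fin 4, k ≠ l → ((u, k) : V × Fin 4) ≠ (u, l) := fun k l h h' =>
    h (congrArg Prod.snd h')
  have e1c : join e (u, a) (u, b) (u, c) = e (u, c) :=
    D9_join_other e _ _ _ (hp _ _ hac.symm) (hp _ _ hbc.symm) (hn _ _) (hn _ _)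
  have e1d : join e (u, a) (u, b) (u, d) = e (u, d) :=
    D9_join_other e _ _ _ (hp _ _ had.symm) (hp _ _ hbd.symm) (hn _ _) (hn _ _)
  have e1ya : join e (u, a) (u, b) (e (u, a)) = e (u, b) := D9_join_l e he _ _ (hn _ _) (hn _ _)
  have e1yb : join e (u, a) (u, b) (e (u, b)) = e (u, a) :=
    D9_join_r e he _ _ (hn _ _) (hn _ _) (hp _ _ hab.symm)
  have e1yc : join e (u, a) (u, b) (e (u, c)) = (u, c) := by
    rw [D9_join_other e _ _ _ (hn _ _) (hn _ _) (by rw [he]; exact hp _ _ hac.symm)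
      (by rw [he]; exact hp _ _ hbc.symm), he]
  have e1yd : join e (u, a) (u, b) (e (u, d)) = (u, d) := by
    rw [D9_join_other e _ _ _ (hn _ _) (hn _ _) (by rw [he]; exact hp _ _ had.symm)
      (by rw [he]; exact hp _ _ hbd.symm), he]
  refine ⟨?_, ?_, ?_, ?_, ?_, ?_, ?_⟩
  · unfold lp
    rw [if_neg (hn _ _), e1c, if_neg (hn _ _)]
  · intro i
    rcases hall i with rfl | rfl | rfl | rfl
    · rw [D9_join_other, join_left]
      · exact hp _ _ hac
      · exact hp _ _ had
      · rw [join_left]; exact hp _ _ hac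
      · rw [join_left]; exact hp _ _ had
    · rw [D9_join_other, join_right]
      · exact hp _ _ hbc
      · exact hp _ _ hbd
      · rw [join_right]; exact hp _ _ hbc
      · rw [join_right]; exact hp _ _ hbd
    · rw [join_left]
    · rw [join_right]
  · rw [D9_join_other, e1ya]
    · exact hn _ _
    · exact hn _ _
    · rw [e1ya]; exact hn _ _
    · rw [e1ya]; exact hn _ _
  · rw [D9_join_other, e1yb]
    · exact hn _ _
    · exact hn _ _
    · rw [e1yb]; exact hn _ _
    · rw [e1yb]; exact hn _ _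
  · unfold join at e1yc e1d ⊢
    rw [if_neg (by rintro (h | h) <;> exact hn _ _ h), if_pos e1yc, e1d]
  · unfold join at e1yd e1c ⊢
    rw [if_neg (by rintro (h | h) <;> exact hn _ _ h), if_neg (by rw [e1yd]; exact hp _ _ hcd.symm),
      if_pos e1yd, e1c]
  · intro z hz hzk
    have hz' : ∀ k, z ≠ (u, k) := fun k h => hz (by rw [h])
    have hz'' : ∀ k, e z ≠ (u, k) := fun k h => hzk k (by rw [← h, he])
    have h1 : join e (u, a) (u, b) z = e z := D9_join_other e _ _ _ (hz' _) (hz' _) (hz'' _) (hz'' _)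
    rw [D9_join_other, h1]
    · exact hz' _
    · exact hz' _
    · rw [h1]; exact hz'' _
    · rw [h1]; exact hz'' _

theorem D9_sm (e : V × Fin 4 → V × Fin 4) (he : ∀ d, e (e d) = d) (u : V)
    (hne : ∀ k, (e (u, k)).1 ≠ u) (t : Fin 3) :
    ls e u t = 0 ∧ (∀ i, sm e u t (u, i) = (u, i)) ∧
    (∀ k, sm e u t (e (u, k)) = e (u, D9_tau t k)) ∧
    ∀ z, z.1 ≠ u → (∀ k, z ≠ e (u, k)) → sm e u t z = e z := by
  unfold ls sm
  fin_cases t
  · obtain ⟨h1, h2, h3, h4, h5, h6, h7⟩ := D9_two e he u hne 0 1 2 3 (by decide) (by decide)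
      (by decide) (by decide) (by decide) (by decide) (by decide)
    refine ⟨h1, h2, ?_, h7⟩
    intro k
    fin_cases k
    · exact h3
    · exact h4
    · exact h5
    · exact h6
  · obtain ⟨h1, h2, h3, h4, h5, h6, h7⟩ := D9_two e he u hne 0 2 1 3 (by decide) (by decide)
      (by decide) (by decide) (by decide) (by decide) (by decide)
    refine ⟨h1, h2, ?_, h7⟩
    intro k
    fin_cases k
    · exact h3
    · exact h5
    · exact h4
    · exact h6
  · obtain ⟨h1, h2, h3, h4, h5, h6, h7⟩ := D9_two e he u hne 0 3 1 2 (by decide) (by decide)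
      (by decide) (by decide) (by decide) (by decide) (by decide)
    refine ⟨h1, h2, ?_, h7⟩
    intro k
    fin_cases k
    · exact h3
    · exact h5
    · exact h6
    · exact h4

theorem D9_act2 (S : Finset V) (u : V) (hu : u ∉ S) (e : V × Fin 4 → V × Fin 4)
    (h : Act (dts (insert u S)) e) (a b c d : Fin 4) (hab : a ≠ b) (hac : a ≠ c) (had : a ≠ d)
    (hbc : b ≠ c) (hbd : b ≠ d) (hcd : c ≠ d) (hall : ∀ k, k = a ∨ k = b ∨ k = c ∨ k = d) :
    Act (dts S) (join (join e (u, a) (u, b)) (u, c) (u, d)) := by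
  have hp : ∀ k l : Fin 4, k ≠ l → ((u, k) : V × Fin 4) ≠ (u, l) := fun k l h h' =>
    h (congrArg Prod.snd h')
  have hm : ∀ k : Fin 4, ((u, k) : V × Fin 4) ∈ dts (insert u S) := fun k => by
    unfold dts; simp
  have h1 := join_act h (hm a) (hm b) (hp _ _ hab)
  have h2 := join_act (x := (u, c)) (y := (u, d)) h1
    (by rw [mem_erase, mem_erase]; exact ⟨hp _ _ hbc.symm, hp _ _ hac.symm, hm c⟩)
    (by rw [mem_erase, mem_erase]; exact ⟨hp _ _ hbd.symm, hp _ _ had.symm, hm d⟩) (hp _ _ hcd)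
  have hs : (((((dts (insert u S)).erase (u, a)).erase (u, b)).erase (u, c)).erase (u, d)) = dts S := by
    ext ⟨v, i⟩
    simp only [mem_erase, dts, mem_product, mem_insert, mem_univ, and_true, ne_eq, Prod.mk.injEq]
    constructor
    · rintro ⟨h4, h3, h2, h1, (rfl | h)⟩
      · exfalso
        rcases hall i with rfl | rfl | rfl | rfl
        · exact h1 ⟨rfl, rfl⟩
        · exact h2 ⟨rfl, rfl⟩
        · exact h3 ⟨rfl, rfl⟩
        · exact h4 ⟨rfl, rfl⟩
      · exact h
    · intro h
      have hv : v ≠ u := fun h' => hu (h' ▸ h)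
      exact ⟨fun h' => hv h'.1, fun h' => hv h'.1, fun h' => hv h'.1, fun h' => hv h'.1, Or.inr h⟩
  rwa [hs] at h2

theorem D9_act (S : Finset V) (u : V) (hu : u ∉ S) (e : V × Fin 4 → V × Fin 4)
    (h : Act (dts (insert u S)) e) (t : Fin 3) : Act (dts S) (sm e u t) := by
  unfold sm
  fin_cases t
  · exact D9_act2 S u hu e h 0 1 2 3 (by decide) (by decide)
      (by decide) (by decide) (by decide) (by decide) (by decide)
  · exact D9_act2 S u hu e h 0 2 1 3 (by decide) (by decide)
      (by decide) (by decide) (by decide) (by decide) (by decide)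
  · exact D9_act2 S u hu e h 0 3 1 2 (by decide) (by decide)
      (by decide) (by decide) (by decide) (by decide) (by decide)

/-- renaming of the darts -/
def D9_cj (e : V × Fin 4 → V × Fin 4) (π : V → Equiv.Perm (Fin 4)) : V × Fin 4 → V × Fin 4 :=
  fun d => ((e (d.1, (π d.1).symm d.2)).1,
      π (e (d.1, (π d.1).symm d.2)).1 (e (d.1, (π d.1).symm d.2)).2)

omit [DecidableEq V] in
theorem D9_cj_act (S : Finset V) (e : V × Fin 4 → V × Fin 4) (π : V → Equiv.Perm (Fin 4))
    (h : Act (dts S) e) : Act (dts S) (D9_cj e π) := by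
  constructor
  · rintro ⟨v, i⟩
    unfold D9_cj
    simp only [Equiv.symm_apply_apply]
    rw [show ((e (v, (π v).symm i)).1, (e (v, (π v).symm i)).2) = e (v, (π v).symm i) from rfl, h.1]
    simp
  · rintro ⟨v, i⟩
    have h1 := h.2 (v, (π v).symm i)
    have h2 : ((v, (π v).symm i) ∈ dts S) ↔ ((v, i) ∈ dts S) := by
      unfold dts; simp
    rw [← h2, ← h1, not_iff_not]
    unfold D9_cj
    constructor
    · intro h3
      have h4 := congrArg Prod.fst h3
      have h5 := congrArg Prod.snd h3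
      simp only at h4 h5
      rw [h4] at h5
      refine Prod.ext h4 ?_
      exact (Equiv.eq_symm_apply (π v)).mpr h5
    · intro h3
      simp only [h3, Equiv.apply_symm_apply]

theorem D9_norm (hJZ2 : JZ2_stmt) (hJC1 : JC1_stmt) (hD4 : D4_stmt) (hD8 : D8_stmt) [Fintype V]
    (u u' : V) (R : List V) (p : Fin 4 → V) (e : V × Fin 4 → V × Fin 4)
    (hN : (u :: u' :: p 0 :: p 1 :: p 2 :: p 3 :: R).Nodup) (hR : R ≠ [])
    (hA : Act (dts (u :: u' :: p 0 :: p 1 :: p 2 :: p 3 :: R).toFinset) e)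
    (h0 : ∀ k, e (u, k) = (p k, 0)) (h1 : ∀ k, e (u', k) = (p k, 1)) :
    32 ∣ Z (-4) (u :: u' :: p 0 :: p 1 :: p 2 :: p 3 :: R) e := by
  set L := p 0 :: p 1 :: p 2 :: p 3 :: R with hLdef
  have he := hA.1
  have hR1 : 1 ≤ R.length := List.length_pos_iff.mpr hR
  obtain ⟨hu, hN'⟩ := List.nodup_cons.mp hN
  obtain ⟨hu', hL⟩ := List.nodup_cons.mp hN'
  have hpL : ∀ k, p k ∈ L := by
    intro k; rw [hLdef]; fin_cases k <;> simp
  have huL : u ∉ L := fun h => hu (List.mem_cons_of_mem _ h)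
  have huu' : u ≠ u' := fun h => hu (by rw [h]; exact List.mem_cons_self)
  have hpu : ∀ k, p k ≠ u := fun k h => huL (h ▸ hpL k)
  have hpu' : ∀ k, p k ≠ u' := fun k h => hu' (h ▸ hpL k)
  have hpi : ∀ k l, p k = p l → k = l := by
    have hl := hL
    rw [hLdef] at hl
    simp only [List.nodup_cons, List.mem_cons, not_or] at hl
    obtain ⟨⟨a1, a2, a3, -⟩, ⟨a4, a5, -⟩, ⟨a6, -⟩, -, -⟩ := hl
    intro k l h
    fin_cases k <;> fin_cases l <;> first | rfl | (exfalso; first | exact a1 h | exact a2 h | exact a3 h | exact a4 h | exact a5 h | exact a6 h | exact a1 h.symm | exact a2 h.symm | exact a3 h.symm | exact a4 h.symm | exact a5 h.symm | exact a6 h.symm)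
  have hneu : ∀ k, (e (u, k)).1 ≠ u := fun k => by rw [h0]; exact hpu k
  have hins : (u :: u' :: L).toFinset = insert u (insert u' L.toFinset) := by
    rw [List.toFinset_cons, List.toFinset_cons]
  have hu'F : u' ∉ L.toFinset := fun h => hu' (List.mem_toFinset.mp h)
  have huF : u ∉ insert u' L.toFinset := by
    rw [mem_insert, not_or]; exact ⟨huu', fun h => huL (List.mem_toFinset.mp h)⟩
  rw [hins] at hA
  -- first smoothing
  have s1 := fun t => D9_sm e he u hneu t
  have F1 : ∀ t z, z.1 ≠ u → (∀ k, z ≠ (p k, 0)) → sm e u t z = e z := by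
    intro t z hz hk
    exact (s1 t).2.2.2 z hz (fun k => by rw [h0]; exact hk k)
  have F2 : ∀ t k, sm e u t (p k, 0) = (p (D9_tau t k), 0) := by
    intro t k
    have := (s1 t).2.2.1 k
    rwa [h0, h0] at this
  have F3 : ∀ t k, sm e u t (u', k) = (p k, 1) := by
    intro t k
    rw [F1 t (u', k) huu'.symm (fun l h => hpu' l (congrArg Prod.fst h).symm), h1]
  have hAF : ∀ t, Act (dts (insert u' L.toFinset)) (sm e u t) := fun t => D9_act _ u huF e hA t
  have hne2 : ∀ t k, (sm e u t (u', k)).1 ≠ u' := fun t k => by rw [F3]; exact hpu' k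
  have s2 := fun t t' => D9_sm (sm e u t) (hAF t).1 u' (hne2 t) t'
  have g1 : ∀ t t' i, sm (sm e u t) u' t' (u, i) = (u, i) := by
    intro t t' i
    rw [(s2 t t').2.2.2 (u, i) huu' (fun k => by
      rw [F3]; exact fun h => hpu k (congrArg Prod.fst h).symm)]
    exact (s1 t).2.1 i
  have g2 : ∀ t t' i, sm (sm e u t) u' t' (u', i) = (u', i) := fun t t' i => (s2 t t').2.1 i
  have g3 : ∀ t t' k, sm (sm e u t) u' t' (p k, 0) = (p (D9_tau t k), 0) := by
    intro t t' k
    rw [(s2 t t').2.2.2 (p k, 0) (hpu' k) (fun l => by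
      rw [F3]; intro h; exact (show (0 : Fin 4) ≠ 1 by decide) (congrArg Prod.snd h))]
    exact F2 t k
  have g4 : ∀ t t' k, sm (sm e u t) u' t' (p k, 1) = (p (D9_tau t' k), 1) := by
    intro t t' k
    have := (s2 t t').2.2.1 k
    rwa [F3, F3] at this
  have g5 : ∀ t t' z, z.1 ≠ u → z.1 ≠ u' → (∀ k, z ≠ (p k, 0)) → (∀ k, z ≠ (p k, 1)) →
      sm (sm e u t) u' t' z = e z := by
    intro t t' z a1 a2 a3 a4
    rw [(s2 t t').2.2.2 z a2 (fun k => by rw [F3]; exact a4 k)]
    exact F1 t z a1 a3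
  have g6 : ∀ t t', Act (dts L.toFinset) (sm (sm e u t) u' t') := fun t t' =>
    D9_act _ u' hu'F _ (hAF t) t'
  have hactL : ∀ t t', ∀ v ∈ L, ∀ i, sm (sm e u t) u' t' (v, i) ≠ (v, i) := by
    intro t t' v hv i
    refine ((g6 t t').2 (v, i)).mpr ?_
    unfold dts
    rw [mem_product]
    exact ⟨List.mem_toFinset.mpr hv, mem_univ _⟩
  -- expansion
  have hZ : Z (-4) (u :: u' :: L) e = ∑ t : Fin 3, ∑ t' : Fin 3, Z (-4) L (sm (sm e u t) u' t') := by
    show ∑ t : Fin 3, (-4) ^ ls e u t * (∑ t' : Fin 3, (-4) ^ ls (sm e u t) u' t' *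
      Z (-4) L (sm (sm e u t) u' t')) = _
    refine Finset.sum_congr rfl fun t _ => ?_
    rw [(s1 t).1, pow_zero, one_mul]
    refine Finset.sum_congr rfl fun t' _ => ?_
    rw [(s2 t t').1, pow_zero, one_mul]
  have hlen : 3 ≤ L.length := by rw [hLdef]; simp only [List.length_cons]; omega
  have h16 : ∀ t t', 16 ∣ Z (-4) L (sm (sm e u t) u' t') := fun t t' =>
    hJC1 V L _ hL hlen (g6 t t')
  -- symmetry
  have hsym : ∀ t t', Z (-4) L (sm (sm e u t) u' t') = Z (-4) L (sm (sm e u t') u' t) := by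
    intro t t'
    let π : V → Equiv.Perm (Fin 4) := fun v => if ∃ k, v = p k then Equiv.swap 0 1 else 1
    have hπp : ∀ k, π (p k) = Equiv.swap 0 1 := fun k => if_pos ⟨k, rfl⟩
    have hπn : ∀ v, (¬ ∃ k, v = p k) → π v = 1 := fun v h => if_neg h
    have hw : ∀ z : V × Fin 4, z.1 ≠ u → z.1 ≠ u' → π (e z).1 (e z).2 = (e z).2 := by
      intro z a1 a2
      by_cases hk : ∃ k, (e z).1 = p k
      · obtain ⟨k, hk⟩ := hk
        rw [hk, hπp]
        apply Equiv.swap_apply_of_ne_of_ne
        · intro h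
          have h3 : e z = (p k, 0) := Prod.ext hk h
          have h4 : z = (u, k) := by rw [← he z, h3, ← h0, he]
          exact a1 (by rw [h4])
        · intro h
          have h3 : e z = (p k, 1) := Prod.ext hk h
          have h4 : z = (u', k) := by rw [← he z, h3, ← h1, he]
          exact a2 (by rw [h4])
      · rw [hπn _ hk]; rfl
    have hconj : D9_cj (sm (sm e u t) u' t') π = sm (sm e u t') u' t := by
      funext z
      obtain ⟨v, i⟩ := z
      unfold D9_cj
      by_cases hv : v = u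
      · subst hv
        have : π v = 1 := hπn v (fun ⟨k, hk⟩ => hpu k hk.symm)
        simp only [this]
        show ((sm (sm e v t) u' t' (v, i)).1, π (sm (sm e v t) u' t' (v, i)).1
          (sm (sm e v t) u' t' (v, i)).2) = _
        rw [g1, g1]
        simp only [this]
        rfl
      by_cases hv' : v = u'
      · subst hv'
        have : π v = 1 := hπn v (fun ⟨k, hk⟩ => hpu' k hk.symm)
        simp only [this]
        show ((sm (sm e u t) v t' (v, i)).1, π (sm (sm e u t) v t' (v, i)).1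
          (sm (sm e u t) v t' (v, i)).2) = _
        rw [g2, g2]
        simp only [this]
        rfl
      by_cases hk : ∃ k, v = p k
      · obtain ⟨k, rfl⟩ := hk
        rw [hπp]
        by_cases i0 : i = 0
        · subst i0
          have : (Equiv.swap (0 : Fin 4) 1).symm 0 = 1 := by decide
          simp only [this]
          rw [g4, g3]
          simp only [hπp]
          have : (Equiv.swap (0 : Fin 4) 1) 1 = 0 := by decide
          rw [this]
        by_cases i1 : i = 1
        · subst i1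
          have : (Equiv.swap (0 : Fin 4) 1).symm 1 = 0 := by decide
          simp only [this]
          rw [g3, g4]
          simp only [hπp]
          have : (Equiv.swap (0 : Fin 4) 1) 0 = 1 := by decide
          rw [this]
        have hi : (Equiv.swap (0 : Fin 4) 1).symm i = i := by
          rw [Equiv.symm_swap]; exact Equiv.swap_apply_of_ne_of_ne i0 i1
        simp only [hi]
        have e5 : ∀ t t', sm (sm e u t) u' t' (p k, i) = e (p k, i) := fun t t' =>
          g5 t t' _ (hpu k) (hpu' k) (fun l h => i0 (congrArg Prod.snd h))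
            (fun l h => i1 (congrArg Prod.snd h))
        rw [e5, e5, hw _ (hpu k) (hpu' k)]
      · rw [hπn v hk]
        have e5 : ∀ t t', sm (sm e u t) u' t' (v, i) = e (v, i) := fun t t' =>
          g5 t t' _ hv hv' (fun l h => hk ⟨l, congrArg Prod.fst h⟩)
            (fun l h => hk ⟨l, congrArg Prod.fst h⟩)
        show ((sm (sm e u t) u' t' (v, i)).1, π (sm (sm e u t) u' t' (v, i)).1
          (sm (sm e u t) u' t' (v, i)).2) = _
        rw [e5, e5, hw _ hv hv']
    have := hD8 V (-4) L (sm (sm e u t) u' t') π hL (g6 t t').1 (hactL t t')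
    rw [← this]
    exact congrArg _ hconj
  -- diagonal
  have hdiag : ∀ t, 32 ∣ Z (-4) L (sm (sm e u t) u' t) := by
    have hgen : ∀ (t : Fin 3) (k : Fin 4) (L' : List V), L.Perm (p 0 :: p k :: L') →
        D9_tau t 0 = k → 32 ∣ Z (-4) L (sm (sm e u t) u' t) := by
      intro t k L' hperm ht
      rw [hJZ2 V (-4) L _ _ hperm hL (g6 t t).1 (hactL t t)]
      have hF : (p 0 :: p k :: L').toFinset = L.toFinset := (List.toFinset_eq_of_perm _ _ hperm).symm
      refine hD4 V L' _ (p 0) (p k) 0 1 0 1 (hperm.nodup hL) (by decide) (by decide) ?_ ?_ ?_ ?_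
      · have h3 := hperm.length_eq
        rw [hLdef] at h3
        simp only [List.length_cons] at h3
        omega
      · rw [hF]; exact g6 t t
      · rw [g3, ht]
      · rw [g4, ht]
    intro t
    fin_cases t
    · exact hgen 0 1 (p 2 :: p 3 :: R) (List.Perm.refl _) rfl
    · exact hgen 1 2 (p 1 :: p 3 :: R) (List.Perm.cons _ (List.Perm.swap _ _ _)) rfl
    · refine hgen 2 3 (p 1 :: p 2 :: R) (List.Perm.cons _ ?_) rfl
      exact List.perm_middle (l₁ := [p 1, p 2]) (a := p 3) (l₂ := R)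
  rw [hZ]
  simp only [Fin.sum_univ_three]
  have a1 := hdiag 0
  have a2 := hdiag 1
  have a3 := hdiag 2
  have b1 := h16 0 1
  have b2 := h16 0 2
  have b3 := h16 1 2
  rw [hsym 1 0, hsym 2 0, hsym 2 1]
  omega

end D9aux

theorem D9 (hJZ2 : JZ2_stmt) (hJC1 : JC1_stmt) (hD4 : D4_stmt) (hD8 : D8_stmt) : D9_stmt := by
  classical
  intro V _ _ u u' R p e hN hR hA hk hk'
  choose f hf using hk
  choose f' hf' using hk'
  have he := hA.1
  obtain ⟨hu, hN'⟩ := List.nodup_cons.mp hN
  obtain ⟨hu', hL⟩ := List.nodup_cons.mp hN'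
  have hpL : ∀ k, p k ∈ p 0 :: p 1 :: p 2 :: p 3 :: R := by
    intro k; fin_cases k <;> simp
  have huL : u ∉ p 0 :: p 1 :: p 2 :: p 3 :: R := fun h => hu (List.mem_cons_of_mem _ h)
  have huu' : u ≠ u' := fun h => hu (by rw [h]; exact List.mem_cons_self)
  have hpu : ∀ k, p k ≠ u := fun k h => huL (h ▸ hpL k)
  have hpu' : ∀ k, p k ≠ u' := fun k h => hu' (h ▸ hpL k)
  have hpi : ∀ k l, p k = p l → k = l := by
    have hl := hL
    simp only [List.nodup_cons, List.mem_cons, not_or] at hl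
    obtain ⟨⟨a1, a2, a3, -⟩, ⟨a4, a5, -⟩, ⟨a6, -⟩, -, -⟩ := hl
    intro k l h
    fin_cases k <;> fin_cases l <;> first | rfl | (exfalso; first | exact a1 h | exact a2 h | exact a3 h | exact a4 h | exact a5 h | exact a6 h | exact a1 h.symm | exact a2 h.symm | exact a3 h.symm | exact a4 h.symm | exact a5 h.symm | exact a6 h.symm)
  have hfi : Function.Injective f := fun k l h => hpi k l (by rw [← hf k, ← hf l, h])
  have hfi' : Function.Injective f' := fun k l h => hpi k l (by rw [← hf' k, ← hf' l, h])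
  let σ := Equiv.ofBijective f (Finite.injective_iff_bijective.mp hfi)
  let σ' := Equiv.ofBijective f' (Finite.injective_iff_bijective.mp hfi')
  have hj : ∀ k, (e (u, f k)).2 ≠ (e (u', f' k)).2 := by
    intro k h
    have h1 : e (u, f k) = e (u', f' k) := Prod.ext (by rw [hf, hf']) h
    have h2 : ((u, f k) : V × Fin 4) = (u', f' k) := by rw [← he (u, f k), h1, he]
    exact huu' (congrArg Prod.fst h2)
  have hρ : ∀ j j' : Fin 4, j ≠ j' → ∃ ρ : Equiv.Perm (Fin 4), ρ j = 0 ∧ ρ j' = 1 := by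
    intro j j' hjj
    have h1 : Equiv.swap j 0 j' ≠ 0 := by
      intro h
      have h2 : Equiv.swap j 0 j = 0 := Equiv.swap_apply_left j 0
      exact hjj ((Equiv.swap j 0).injective (h2.trans h.symm))
    refine ⟨(Equiv.swap j 0).trans (Equiv.swap (Equiv.swap j 0 j') 1), ?_, ?_⟩
    · rw [Equiv.trans_apply, Equiv.swap_apply_left]
      exact Equiv.swap_apply_of_ne_of_ne h1.symm (by decide)
    · rw [Equiv.trans_apply, Equiv.swap_apply_left]
  choose ρ hρ1 hρ2 using fun k => hρ _ _ (hj k)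
  let π : V → Equiv.Perm (Fin 4) := fun v => if v = u then σ.symm else if v = u' then σ'.symm else
    if h : ∃ k, v = p k then ρ h.choose else 1
  have hπu : π u = σ.symm := if_pos rfl
  have hπu' : π u' = σ'.symm := by
    show (if u' = u then σ.symm else if u' = u' then σ'.symm else _) = _
    rw [if_neg huu'.symm, if_pos rfl]
  have hπp : ∀ k, π (p k) = ρ k := by
    intro k
    have hex : ∃ l, p k = p l := ⟨k, rfl⟩
    have : hex.choose = k := (hpi _ _ hex.choose_spec).symm
    show (if p k = u then σ.symm else if p k = u' then σ'.symm else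
      if h : ∃ l, p k = p l then ρ h.choose else 1) = _
    rw [if_neg (hpu k), if_neg (hpu' k), dif_pos hex, this]
  have h0 : ∀ k, D9_cj e π (u, k) = (p k, 0) := by
    intro k
    have h1 : (π u).symm k = f k := by rw [hπu]; rfl
    show ((e (u, (π u).symm k)).1, π (e (u, (π u).symm k)).1 (e (u, (π u).symm k)).2) = _
    rw [h1, hf, hπp, hρ1]
  have h1 : ∀ k, D9_cj e π (u', k) = (p k, 1) := by
    intro k
    have h1 : (π u').symm k = f' k := by rw [hπu']; rfl
    show ((e (u', (π u').symm k)).1, π (e (u', (π u').symm k)).1 (e (u', (π u').symm k)).2) = _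
    rw [h1, hf', hπp, hρ2]
  have h2 := D9_norm hJZ2 hJC1 hD4 hD8 u u' R p (D9_cj e π) hN hR (D9_cj_act _ e π hA) h0 h1
  have h3 := hD8 V (-4) _ e π hN hA.1 (fun v hv i => (hA.2 (v, i)).mpr (by
    unfold dts
    rw [mem_product]
    exact ⟨List.mem_toFinset.mpr hv, mem_univ _⟩))
  rw [← h3]
  exact h2

end CT
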